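import Mathlib

/-!
# Universal exponents (MP_bf63dc_nt): infinite sequences from an ultrafilter (Ramsey's theorem and the diagonal sequence in one step)
-/

set_option autoImplicit false

namespace Pool.Agent.helper4.UX

open Finset

/-- for `𝒰`-almost all `x_1`, for `𝒰`-almost all `x_2`, ..., `P (S ∪ {x_1, ..., x_r})` -/
def Lim (U : Filter ℕ) (P : Finset ℕ → Prop) : ℕ → Finset ℕ → Prop
  | 0, S => P S
  | r + 1, S => ∀ᶠ x in U, Lim U P r (insert x S)

theorem Lim_not (U : Ultrafilter ℕ) (P : Finset ℕ → Prop) : ∀ (r : ℕ) (S : Finset ℕ),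
    ¬ Lim (U : Filter ℕ) P r S → Lim (U : Filter ℕ) (fun S => ¬ P S) r S := by
  intro r
  induction r with
  | zero => exact fun S h => h
  | succ r ih =>
    intro S h
    have h1 : ∀ᶠ x in (U : Filter ℕ), ¬ Lim (U : Filter ℕ) P r (insert x S) := by
      rw [Ultrafilter.eventually_not]
      exact h
    exact h1.mono (fun x hx => ih _ hx)

/-- recursion with the whole history -/
theorem hist (R : ℕ → (ℕ → ℕ) → ℕ → Prop) (hR : ∀ j h, ∃ y, R j h y)
    (hloc : ∀ j h h' y, (∀ i < j, h i = h' i) → R j h y → R j h' y) : ∃ x : ℕ → ℕ, ∀ j, R j x (x j) := by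
  classical
  choose F hF using hR
  let g : ℕ → (ℕ → ℕ) := fun n => Nat.rec (fun _ => 0) (fun j gj => Function.update gj j (F j gj)) n
  have hg : ∀ j, g (j + 1) = Function.update (g j) j (F j (g j)) := fun j => rfl
  have hst : ∀ i j, i < j → g j i = F i (g i) := by
    intro i j
    induction j with
    | zero => intro h; omega
    | succ j ih =>
      intro h
      rw [hg]
      rcases Nat.lt_succ_iff_lt_or_eq.1 h with h1 | h1
      · rw [Function.update_of_ne (by omega)]
        exact ih h1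
      · subst h1
        rw [Function.update_self]
  refine ⟨fun j => F j (g j), fun j => ?_⟩
  exact hloc j (g j) _ _ (fun i hi => hst i j hi) (hF j (g j))

theorem build (U : Filter ℕ) [U.NeBot] (A : Set ℕ) (hA : ∀ᶠ x in U, x ∈ A) (hU : ∀ M : ℕ, ∀ᶠ x in U, M < x)
    (P : ℕ → Finset ℕ → Prop) (s : ℕ → ℕ) (h : ∀ i, Lim U (P i) (s i) ∅) :
    ∃ x : ℕ → ℕ, StrictMono x ∧ (∀ j, x j ∈ A) ∧
      ∀ (i : ℕ) (I : Finset ℕ), #I = s i → (∀ j ∈ I, i ≤ j) → P i (I.image x) := by
  classical
  obtain ⟨x, hx⟩ := hist (fun j g y => y ∈ A ∧ (∀ q < j, g q < y) ∧ ∀ i ≤ j, ∀ I ⊆ Finset.range j, (∀ q ∈ I, i ≤ q) →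
      #I < s i → Lim U (P i) (s i - #I) (I.image g) → Lim U (P i) (s i - (#I + 1)) (insert y (I.image g)))
    (by
      intro j g
      have h1 : ∀ᶠ y in U, ∀ q ∈ Finset.range j, g q < y := (Finset.eventually_all _).2 (fun q _ => hU (g q))
      have h2 : ∀ᶠ y in U, ∀ i ∈ Finset.range (j + 1), ∀ I ∈ (Finset.range j).powerset, (∀ q ∈ I, i ≤ q) →
          #I < s i → Lim U (P i) (s i - #I) (I.image g) → Lim U (P i) (s i - (#I + 1)) (insert y (I.image g)) := by
        refine (Finset.eventually_all _).2 (fun i _ => (Finset.eventually_all _).2 (fun I _ => ?_))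
        by_cases h3 : (∀ q ∈ I, i ≤ q) ∧ #I < s i ∧ Lim U (P i) (s i - #I) (I.image g)
        · have h4 := h3.2.2
          have h5 : s i - #I = (s i - (#I + 1)) + 1 := by
            have := h3.2.1
            omega
          rw [h5] at h4
          exact Filter.Eventually.mono h4 (fun y hy _ _ _ => hy)
        · exact Filter.Eventually.of_forall (fun y h4 h5 h6 => absurd ⟨h4, h5, h6⟩ h3)
      obtain ⟨y, hy1, hy2, hy3⟩ := (hA.and (h1.and h2)).exists
      exact ⟨y, hy1, fun q hq => hy2 q (Finset.mem_range.2 hq), fun i hi I hI =>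
        hy3 i (Finset.mem_range.2 (by omega)) I (Finset.mem_powerset.2 hI)⟩)
    (by
      rintro j g g' y hgg ⟨h1, h2, h3⟩
      refine ⟨h1, fun q hq => by rw [← hgg q hq]; exact h2 q hq, fun i hi I hI => ?_⟩
      have h4 : I.image g' = I.image g := Finset.image_congr (fun q hq => (hgg q (Finset.mem_range.1 (hI hq))).symm)
      rw [h4]
      exact h3 i hi I hI)
  refine ⟨x, strictMono_nat_of_lt_succ (fun n => (hx (n + 1)).2.1 n (by omega)), fun j => (hx j).1, ?_⟩
  have key : ∀ (n i : ℕ) (I : Finset ℕ), I ⊆ Finset.range n → (∀ j ∈ I, i ≤ j) → #I ≤ s i →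
      Lim U (P i) (s i - #I) (I.image x) := by
    intro n
    induction n with
    | zero =>
      intro i I hI _ _
      have h1 : I = ∅ := by
        rw [Finset.range_zero] at hI
        exact Finset.subset_empty.1 hI
      rw [h1]
      exact h i
    | succ n ih =>
      intro i I hI hiI hIs
      by_cases hn : n ∈ I
      · obtain ⟨J, hJ⟩ : ∃ J, J = I.erase n := ⟨_, rfl⟩
        have hnJ : n ∉ J := by
          rw [hJ]
          exact Finset.notMem_erase n I
        have hIJ : I = insert n J := by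
          rw [hJ, Finset.insert_erase hn]
        have hJr : J ⊆ Finset.range n := by
          intro q hq
          have h1 : q ∈ Finset.range (n + 1) := hI (by rw [hIJ]; exact Finset.mem_insert_of_mem hq)
          rw [Finset.mem_range] at h1 ⊢
          have h2 : q ≠ n := fun h0 => hnJ (h0 ▸ hq)
          omega
        have hc : #I = #J + 1 := by
          rw [hIJ, Finset.card_insert_of_notMem hnJ]
        have hiJ : ∀ q ∈ J, i ≤ q := fun q hq => hiI q (by rw [hIJ]; exact Finset.mem_insert_of_mem hq)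
        have h1 := ih i J hJr hiJ (by omega)
        have h2 := (hx n).2.2 i (hiI n hn) J hJr hiJ (by omega) h1
        rw [hc, hIJ, Finset.image_insert]
        exact h2
      · have hIr : I ⊆ Finset.range n := by
          intro q hq
          have h1 := hI hq
          rw [Finset.mem_range] at h1 ⊢
          have h2 : q ≠ n := fun h0 => hn (h0 ▸ hq)
          omega
        exact ih i I hIr hiI hIs
  intro i I hI hiI
  have h1 := key (I.sup id + 1) i I (fun q hq => Finset.mem_range.2 (Nat.lt_succ_of_le (Finset.le_sup (f := id) hq))) hiI hI.le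
  rw [hI, Nat.sub_self] at h1
  exact h1

/-- a property of `s`-element sets which occurs in every large finite set holds in the limit -/
theorem Lim_of (U : Ultrafilter ℕ) (hU : ∀ M : ℕ, ∀ᶠ x in (U : Filter ℕ), M < x) (P : Finset ℕ → Prop) (s : ℕ)
    (h : ∃ K : ℕ, ∀ T : Finset ℕ, K ≤ #T → ∃ S ⊆ T, #S = s ∧ P S) : Lim (U : Filter ℕ) P s ∅ := by
  classical
  by_contra hcon
  obtain ⟨K, hK⟩ := h
  obtain ⟨x, hx, -, hP⟩ := build (U : Filter ℕ) Set.univ (Filter.Eventually.of_forall (fun _ => trivial)) hU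
    (fun _ => fun S => ¬ P S) (fun _ => s) (fun _ => Lim_not U P s ∅ hcon)
  obtain ⟨S, hS, hSc, hPS⟩ := hK ((Finset.range K).image x) (by
    rw [Finset.card_image_of_injective _ hx.injective, Finset.card_range])
  obtain ⟨J, hJ, rfl⟩ := Finset.subset_image_iff.1 hS
  rw [Finset.card_image_of_injective _ hx.injective] at hSc
  exact hP 0 J hSc (fun _ _ => Nat.zero_le _) hPS

/-- **The diagonal sequence.** -/
theorem diag (A : Set ℕ) (hA : A.Infinite) (P : ℕ → Finset ℕ → Prop) (s : ℕ → ℕ)
    (h : ∀ i, ∃ K : ℕ, ∀ T : Finset ℕ, K ≤ #T → ∃ S ⊆ T, #S = s i ∧ P i S) :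
    ∃ x : ℕ → ℕ, StrictMono x ∧ (∀ j, x j ∈ A) ∧
      ∀ (i : ℕ) (I : Finset ℕ), #I = s i → (∀ j ∈ I, i ≤ j) → P i (I.image x) := by
  have : (Filter.cofinite ⊓ Filter.principal A).NeBot := Filter.cofinite_inf_principal_neBot_iff.2 hA
  obtain ⟨U, hU⟩ : ∃ U : Ultrafilter ℕ, (U : Filter ℕ) ≤ Filter.cofinite ⊓ Filter.principal A :=
    ⟨Ultrafilter.of _, Ultrafilter.of_le _⟩
  have h1 : ∀ᶠ x in (U : Filter ℕ), x ∈ A := hU (Filter.mem_inf_of_right (Filter.mem_principal_self A))
  have h2 : ∀ M : ℕ, ∀ᶠ x in (U : Filter ℕ), M < x := fun M => by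
    refine hU (Filter.mem_inf_of_left ?_)
    rw [Nat.cofinite_eq_atTop]
    exact Filter.eventually_gt_atTop M
  exact build (U : Filter ℕ) A h1 h2 P s (fun i => Lim_of U h2 (P i) (s i) (h i))

end Pool.Agent.helper4.UX
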