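import Pool.Agent.helper4.UX.Glob

/-!
# Cliques of cases (MP_bf63dc_nt): common integer forms
-/

set_option autoImplicit false

namespace Pool.Agent.helper4.UX

open Finset Pool.Agent.IT Pool.Agent.AT

/-- the form with the smallest slope at `l` -/
theorem min_form (l : ℕ) (hl : l.Prime) (S : Finset ℕ) (v : ℕ) (hv : v ∈ S) (A B : ℕ → ℕ)
    (hABC : ∀ j ∈ S, Nat.Coprime (A j) (B j)) (hv1 : B v = 1) :
    ∃ u ∈ S, (∀ j ∈ S, (A j).factorization l ≤ (A u).factorization l) ∧ ¬ (l : ℤ) ∣ B u := by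
  obtain ⟨u, hu, hmax⟩ := Finset.exists_max_image S (fun j => (A j).factorization l) ⟨v, hv⟩
  by_cases h0 : (A u).factorization l = 0
  · refine ⟨v, hv, fun j hj => ?_, ?_⟩
    · have h1 := hmax j hj
      rw [h0] at h1
      omega
    · rw [hv1]
      exact_mod_cast notdvd_one l hl
  · refine ⟨u, hu, hmax, ?_⟩
    have h1 : l ∣ A u := by
      by_contra h2
      exact h0 (Nat.factorization_eq_zero_of_not_dvd h2)
    have h3 : IsCoprime (A u : ℤ) (B u : ℤ) := Nat.isCoprime_iff_coprime.2 (hABC u hu)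
    exact cop_dvd l hl _ _ h3 (by exact_mod_cast h1)

/-- local integral solutions -/
theorem local_int (l : ℕ) (hl : l.Prime) (f : ℕ → ℚ × ℚ) (S : Finset ℕ) (v : ℕ) (hv : v ∈ S) (A B : ℕ → ℕ) (C : ℕ → ℤ)
    (hf : ∀ i ∈ S, 0 < (f i).1)
    (hABC : ∀ j ∈ S, Rel (f v) (f j) (A j) (B j) (C j) ∧ 0 < A j ∧ 0 < B j ∧ Nat.Coprime (A j) (B j))
    (hv1 : B v = 1)
    (h : ∀ i ∈ S, ∀ j ∈ S, i ≠ j → ∃ (a b : ℕ) (c : ℤ), Ad a b c ∧ Rel (f i) (f j) a b c) :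
    ∃ x : ℤ, ∀ j ∈ S, (l : ℤ) ^ ((A j).factorization l) ∣ B j * x + C j := by
  classical
  have hp : Prime (l : ℤ) := Nat.prime_iff_prime_int.1 hl
  obtain ⟨u, hu, hmax, hBu⟩ := min_form l hl S v hv A B (fun j hj => (hABC j hj).2.2.2) hv1
  set e := (A u).factorization l with he
  obtain ⟨hRu, hAu, hBu0, hcu⟩ := hABC u hu
  obtain ⟨p, q, hpq⟩ := (ncop l hl _ hBu e).symm
  obtain ⟨x, hx⟩ : ∃ x, x = -(p * C u) := ⟨_, rfl⟩
  obtain ⟨z, hzz⟩ : ∃ z : ℤ, B u * x + C u = (l : ℤ) ^ e * z := ⟨q * C u, by rw [hx]; linear_combination (-(C u)) * hpq⟩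
  refine ⟨x, fun j hj => ?_⟩
  rcases eq_or_ne u j with huj | huj
  · rw [← huj, hzz]
    exact Dvd.intro _ rfl
  obtain ⟨α, β, γ, hA, hR⟩ := h u hu j hj huj
  have hcop : IsCoprime (α : ℤ) (β : ℤ) := Nat.isCoprime_iff_coprime.2 hA.2.2.2.1
  obtain ⟨e1, e2⟩ := Rel_id _ _ _ _ _ _ _ _ _ _ _ _ (hf v hv) hRu (hABC j hj).1 hR
  have hα : ¬ (l : ℤ) ∣ α := by
    intro h1
    have h2 : ¬ (l : ℤ) ∣ β := cop_dvd l hl _ _ hcop h1
    have h3 : (l : ℤ) ^ (e + 1) ∣ (α : ℤ) * A u * B j := by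
      rw [pow_succ, mul_comm ((l : ℤ) ^ e)]
      refine Dvd.dvd.mul_right (mul_dvd_mul h1 ?_) _
      have h4 : l ^ e ∣ A u := Nat.ordProj_dvd (A u) l
      exact_mod_cast h4
    rw [e1] at h3
    have h5 : (l : ℤ) ^ (e + 1) ∣ (β : ℤ) * A j := (ncop l hl _ hBu _).dvd_of_dvd_mul_right h3
    have h6 : (l : ℤ) ^ (e + 1) ∣ (A j : ℤ) := (ncop l hl _ h2 _).dvd_of_dvd_mul_left h5
    have h7 : l ^ (e + 1) ∣ A j := by exact_mod_cast h6
    have h8 := (hl.pow_dvd_iff_le_factorization (hABC j hj).2.1.ne').1 h7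
    have h9 := hmax j hj
    omega
  obtain ⟨A', hA'⟩ : ∃ A' : ℕ, A u = l ^ e * A' := ⟨_, (Nat.ordProj_mul_ordCompl_eq_self (A u) l).symm⟩
  have hA'l : ¬ (l : ℤ) ∣ A' := by
    intro h1
    have h2 : l ^ (e + 1) ∣ A u := by
      rw [hA', pow_succ]
      exact mul_dvd_mul_left _ (by exact_mod_cast h1)
    have h3 := (hl.pow_dvd_iff_le_factorization hAu.ne').1 h2
    omega
  obtain ⟨g, hg⟩ : ∃ g, g = (A j).factorization l := ⟨_, rfl⟩
  obtain ⟨D, hD⟩ : ∃ D : ℕ, A j = l ^ g * D := ⟨_, by rw [hg]; exact (Nat.ordProj_mul_ordCompl_eq_self (A j) l).symm⟩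
  rw [← hg]
  have hl0 : (l : ℤ) ^ e ≠ 0 := pow_ne_zero _ hp.ne_zero
  have key : (α : ℤ) * A' * (B j * x + C j) = (l : ℤ) ^ g * (D * (A' * γ + β * z)) := by
    have h1 : (l : ℤ) ^ e * ((α : ℤ) * A' * (B j * x + C j)) = (l : ℤ) ^ e * ((l : ℤ) ^ g * (D * (A' * γ + β * z))) := by
      have h2 : ((A u : ℕ) : ℤ) = (l : ℤ) ^ e * A' := by rw [hA']; push_cast; rfl
      have h3 : ((A j : ℕ) : ℤ) = (l : ℤ) ^ g * D := by rw [hD]; push_cast; rfl
      have h4 : (α : ℤ) * A u * (B j * x + C j) = A j * (A u * γ + β * ((l : ℤ) ^ e * z)) := by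
        linear_combination x * e1 + e2 + (β * A j) * hzz
      rw [h3, h2] at h4
      linear_combination h4
    exact mul_left_cancel₀ hl0 h1
  have hαA : ¬ (l : ℤ) ∣ (α : ℤ) * A' := fun h1 => (hp.dvd_or_dvd h1).elim hα hA'l
  have h1 : (l : ℤ) ^ g ∣ (α : ℤ) * A' * (B j * x + C j) := by
    rw [key]
    exact Dvd.intro _ rfl
  exact (ncop l hl _ hαA _).dvd_of_dvd_mul_left h1

/-- common integer forms for a clique; for every prime some slope is prime to it -/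
theorem clique_forms (f : ℕ → ℚ × ℚ) (S : Finset ℕ) (hne : S.Nonempty)
    (hf : ∀ i ∈ S, 0 < (f i).1)
    (h : ∀ i ∈ S, ∀ j ∈ S, i ≠ j → ∃ (a b : ℕ) (c : ℤ), Ad a b c ∧ Rel (f i) (f j) a b c) :
    ∃ (s : ℕ → ℕ) (D : ℕ → ℤ) (y : ℕ → ℚ), (∀ j ∈ S, 0 < s j) ∧
      (∀ j ∈ S, ∀ n : ℕ, (f j).1 * y n + (f j).2 = (s j : ℚ) * n + D j) ∧
      ∀ p : ℕ, p.Prime → ∃ u ∈ S, ¬ (p : ℤ) ∣ s u := by
  classical
  obtain ⟨v, hv⟩ := hne
  have hdat : ∀ j, ∃ (a b : ℕ) (c : ℤ), (j ∈ S → Rel (f v) (f j) a b c ∧ 0 < a ∧ 0 < b ∧ Nat.Coprime a b) ∧ (j = v → a = 1 ∧ b = 1) := by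
    intro j
    rcases eq_or_ne v j with h1 | h1
    · exact ⟨1, 1, 0, fun _ => ⟨by rw [h1]; exact Rel_self _, one_pos, one_pos, Nat.coprime_one_right 1⟩, fun _ => ⟨rfl, rfl⟩⟩
    · by_cases hj : j ∈ S
      · obtain ⟨a, b, c, hA, hR⟩ := h v hv j hj h1
        exact ⟨a, b, c, fun _ => ⟨hR, hA.1, hA.2.1, hA.2.2.2.1⟩, fun h0 => absurd h0.symm h1⟩
      · exact ⟨0, 0, 0, fun h0 => absurd h0 hj, fun h0 => absurd h0.symm h1⟩
  choose A B C hABC using hdat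
  have hA : ∀ j ∈ S, Rel (f v) (f j) (A j) (B j) (C j) ∧ 0 < A j ∧ 0 < B j ∧ Nat.Coprime (A j) (B j) := fun j hj => (hABC j).1 hj
  set W : ℕ := ∏ j ∈ S, A j with hW
  have hW0 : W ≠ 0 := Finset.prod_ne_zero_iff.2 (fun j hj => (hA j hj).2.1.ne')
  set P := W.primeFactors with hP
  have hPp : ∀ l ∈ P, l.Prime := fun l hl => Nat.prime_of_mem_primeFactors hl
  have hPA : ∀ l : ℕ, l.Prime → ∀ j ∈ S, l ∣ A j → l ∈ P := fun l hl j hj hd => by
    rw [hP, Nat.mem_primeFactors]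
    exact ⟨hl, hd.trans (Finset.dvd_prod_of_mem A hj), hW0⟩
  set E : ℕ := ∑ j ∈ S, A j with hE
  have hEj : ∀ j ∈ S, ∀ l : ℕ, (A j).factorization l ≤ E := fun j hj l =>
    (Nat.factorization_lt l (hA j hj).2.1.ne').le.trans (Finset.single_le_sum (f := A) (fun _ _ => Nat.zero_le _) hj)
  have hloc : ∀ l : ℕ, ∃ x : ℤ, l.Prime → ∀ j ∈ S, (l : ℤ) ^ ((A j).factorization l) ∣ B j * x + C j := by
    intro l
    by_cases hl : l.Prime
    · obtain ⟨x, hx⟩ := local_int l hl f S v hv A B C hf hA ((hABC v).2 rfl).2 h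
      exact ⟨x, fun _ => hx⟩
    · exact ⟨0, fun h0 => absurd h0 hl⟩
  choose x hx using hloc
  obtain ⟨x₀, hx₀⟩ := crt P hPp x E
  have hval : ∀ l ∈ P, ∀ j ∈ S, (l : ℤ) ^ ((A j).factorization l) ∣ B j * x₀ + C j := by
    intro l hl j hj
    have h1 := hx l (hPp l hl) j hj
    have h3 : (l : ℤ) ^ (E + 1) ∣ B j * (x₀ - x l) := (hx₀ l hl).mul_left _
    have h4 : (B j : ℤ) * x₀ + C j = (B j * x l + C j) + B j * (x₀ - x l) := by ring
    have h5 : (l : ℤ) ^ ((A j).factorization l) ∣ (l : ℤ) ^ (E + 1) := pow_dvd_pow _ (by have := hEj j hj l; omega)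
    rw [h4]
    exact dvd_add h1 (h5.trans h3)
  set ee : ℕ → ℕ := fun l => S.sup (fun j => (A j).factorization l) with hee
  set Q : ℕ := ∏ l ∈ P, l ^ (ee l) with hQ
  have hQ0 : 0 < Q := Finset.prod_pos (fun l hl => pow_pos (hPp l hl).pos _)
  have hAdvd : ∀ j ∈ S, (A j : ℤ) ∣ B j * x₀ + C j := by
    intro j hj
    rw [Int.natCast_dvd]
    rw [Nat.dvd_iff_prime_pow_dvd_dvd]
    intro p t hp hpt
    rcases Nat.eq_zero_or_pos t with rfl | ht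
    · rw [pow_zero]
      exact one_dvd _
    · have h1 : p ∣ A j := (dvd_pow_self p ht.ne').trans hpt
      have h2 : p ∈ P := hPA p hp j hj h1
      have h3 := (hp.pow_dvd_iff_le_factorization (hA j hj).2.1.ne').1 hpt
      have h4 := hval p h2 j hj
      have h5 : ((p ^ t : ℕ) : ℤ) ∣ B j * x₀ + C j := by
        push_cast
        exact (pow_dvd_pow _ h3).trans h4
      exact Int.natCast_dvd.1 h5
  have hAQ : ∀ j ∈ S, A j ∣ Q := by
    intro j hj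
    rw [Nat.dvd_iff_prime_pow_dvd_dvd]
    intro p t hp hpt
    rcases Nat.eq_zero_or_pos t with rfl | ht
    · rw [pow_zero]
      exact one_dvd _
    · have h1 : p ∣ A j := (dvd_pow_self p ht.ne').trans hpt
      have h2 : p ∈ P := hPA p hp j hj h1
      have h3 := (hp.pow_dvd_iff_le_factorization (hA j hj).2.1.ne').1 hpt
      have h4 : p ^ (ee p) ∣ Q := Finset.dvd_prod_of_mem (fun l => l ^ (ee l)) h2
      have h5 : (A j).factorization p ≤ ee p := Finset.le_sup (f := fun j => (A j).factorization p) hj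
      exact (pow_dvd_pow _ (h3.trans h5)).trans h4
  have hQA : ∀ j ∈ S, A j * (Q / A j) = Q := fun j hj => Nat.mul_div_cancel' (hAQ j hj)
  have hDA : ∀ j ∈ S, (A j : ℤ) * ((B j * x₀ + C j) / A j) = B j * x₀ + C j := fun j hj => Int.mul_ediv_cancel' (hAdvd j hj)
  refine ⟨fun j => B j * (Q / A j), fun j => (B j * x₀ + C j) / A j, fun n => ((x₀ : ℚ) + Q * n - (f v).2) / (f v).1, ?_, ?_, ?_⟩
  · intro j hj
    exact Nat.mul_pos (hA j hj).2.2.1 (Nat.div_pos (Nat.le_of_dvd hQ0 (hAQ j hj)) (hA j hj).2.1)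
  · intro j hj n
    obtain ⟨⟨h1, h2⟩, hA0, -, -⟩ := hA j hj
    have hA0' : ((A j : ℕ) : ℚ) ≠ 0 := by exact_mod_cast hA0.ne'
    refine mul_left_cancel₀ hA0' ?_
    have hfv : (f v).1 ≠ 0 := (hf v hv).ne'
    have h3 : (f v).1 * (((x₀ : ℚ) + Q * n - (f v).2) / (f v).1) = (x₀ : ℚ) + Q * n - (f v).2 := mul_div_cancel₀ _ hfv
    have h4 : ((A j : ℕ) : ℚ) * ((Q / A j : ℕ) : ℚ) = Q := by exact_mod_cast hQA j hj
    have h5 : ((A j : ℕ) : ℚ) * (((B j * x₀ + C j) / A j : ℤ) : ℚ) = B j * x₀ + C j := by exact_mod_cast hDA j hj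
    obtain ⟨y, hy⟩ : ∃ y, y = ((x₀ : ℚ) + Q * n - (f v).2) / (f v).1 := ⟨_, rfl⟩
    simp only
    rw [← hy] at h3 ⊢
    push_cast at h4 h5 ⊢
    linear_combination y * h1 + h2 + (B j : ℚ) * h3 - (B j : ℚ) * n * h4 - h5
  · intro p hp
    obtain ⟨u, hu, hmax, hBu⟩ := min_form p hp S v hv A B (fun j hj => (hA j hj).2.2.2) ((hABC v).2 rfl).2
    refine ⟨u, hu, fun h1 => ?_⟩
    have h2 : p ∣ B u * (Q / A u) := by exact_mod_cast h1
    rcases (hp.dvd_mul).1 h2 with h3 | h3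
    · exact hBu (by exact_mod_cast h3)
    · by_cases hpP : p ∈ P
      · have h4 : ee p ≤ (A u).factorization p := Finset.sup_le (fun j hj => hmax j hj)
        have h5 : p ^ (ee p) ∣ A u := (pow_dvd_pow _ h4).trans (Nat.ordProj_dvd (A u) p)
        have h6 : p ^ (ee p + 1) ∣ Q := by
          rw [← hQA u hu, pow_succ]
          exact mul_dvd_mul h5 h3
        have h7 : Q = p ^ (ee p) * ∏ l ∈ P.erase p, l ^ (ee l) := (Finset.mul_prod_erase P (fun l => l ^ (ee l)) hpP).symm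
        rw [h7, pow_succ] at h6
        have h8 : p ∣ ∏ l ∈ P.erase p, l ^ (ee l) := (mul_dvd_mul_iff_left (pow_ne_zero _ hp.ne_zero)).1 h6
        rw [hp.prime.dvd_finsetProd_iff] at h8
        obtain ⟨l, hl, h9⟩ := h8
        have h10 : p = l := (Nat.prime_dvd_prime_iff_eq hp (hPp l (Finset.mem_of_mem_erase hl))).1 (hp.dvd_of_dvd_pow h9)
        exact Finset.ne_of_mem_erase hl h10.symm
      · have h4 : p ∣ Q := h3.trans (Dvd.intro_left _ (hQA u hu))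
        rw [hQ, hp.prime.dvd_finsetProd_iff] at h4
        obtain ⟨l, hl, h5⟩ := h4
        have h6 : p = l := (Nat.prime_dvd_prime_iff_eq hp (hPp l hl)).1 (hp.dvd_of_dvd_pow h5)
        exact hpP (h6 ▸ hl)

end Pool.Agent.helper4.UX
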