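import Pool.Agent.helper4.UX.Quart

/-!
# Cliques of cases (MP_bf63dc_nt): counting
-/

set_option autoImplicit false

namespace Pool.Agent.helper4.UX

open Finset Pool.Agent.IT Pool.Agent.AT

theorem MM4 {α : Type} (V : Finset α) (r : α → α → ℝ) (q : α → α → α → α → ℝ) (h01 : ∀ x y, r x y = 0 ∨ r x y = 1)
    (hsym : ∀ x y, r x y = r y x)
    (hq : ∀ x ∈ V, ∀ y ∈ V, ∀ z ∈ V, ∀ w ∈ V, r x y * (r x z * (r x w * (r y z * (r y w * r z w)))) ≤ q x y z w) :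
    (#V : ℝ) ^ 2 * ∑ x ∈ V, ∑ y ∈ V, r x y ≤ 2 / 3 * (#V : ℝ) ^ 4 + 3 / 2 * ∑ x ∈ V, ∑ y ∈ V, ∑ z ∈ V, ∑ w ∈ V, q x y z w := by
  have hr0 : ∀ x y, 0 ≤ r x y := fun x y => by rcases h01 x y with h | h <;> rw [h] <;> norm_num
  have h := MM_alg (#V : ℝ) (∑ x ∈ V, ∑ y ∈ V, r x y) (∑ x ∈ V, ∑ y ∈ V, r x y * ∑ w ∈ V, r x w * r y w)
    (∑ x ∈ V, ∑ y ∈ V, ∑ z ∈ V, ∑ w ∈ V, r x y * (r x z * (r x w * (r y z * (r y w * r z w)))))
    (∑ x ∈ V, ∑ y ∈ V, r x y * (∑ w ∈ V, r x w * r y w) ^ 2) (Nat.cast_nonneg _)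
    (Finset.sum_nonneg (fun x _ => Finset.sum_nonneg (fun y _ => Finset.sum_nonneg
      (fun z _ => Finset.sum_nonneg (fun w _ => mul_nonneg (hr0 _ _) (mul_nonneg (hr0 _ _)
        (mul_nonneg (hr0 _ _) (mul_nonneg (hr0 _ _) (mul_nonneg (hr0 _ _) (hr0 _ _))))))))))
    (Finset.sum_nonneg (fun x _ => Finset.sum_nonneg (fun y _ => hr0 _ _)))
    (MM_step1 V r h01 hsym) (MM_step2 V r h01 hsym) (MM_step3 V r h01)
  have h2 : ∑ x ∈ V, ∑ y ∈ V, ∑ z ∈ V, ∑ w ∈ V, r x y * (r x z * (r x w * (r y z * (r y w * r z w)))) ≤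
      ∑ x ∈ V, ∑ y ∈ V, ∑ z ∈ V, ∑ w ∈ V, q x y z w :=
    Finset.sum_le_sum (fun x hx => Finset.sum_le_sum (fun y hy => Finset.sum_le_sum (fun z hz =>
      Finset.sum_le_sum (fun w hw => hq x hx y hy z hz w hw))))
  linarith

/-- a clique with its integer forms -/
structure Clq (f : ℕ → ℚ × ℚ) (S : Finset ℕ) (s : ℕ → ℕ) (D : ℕ → ℤ) : Prop where
  sys : Sys S s D
  rel : ∀ i ∈ S, ∀ j ∈ S, i ≠ j → ∃ (a b : ℕ) (c : ℤ), Ad a b c ∧ Rel (f i) (f j) a b c ∧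
    (a : ℤ) * s j = b * s i ∧ (a : ℤ) * D j - b * D i = c

theorem Clq_of (f : ℕ → ℚ × ℚ) (S : Finset ℕ) (hne : S.Nonempty) (hf : ∀ i ∈ S, 0 < (f i).1)
    (h : ∀ i ∈ S, ∀ j ∈ S, i ≠ j → ∃ (a b : ℕ) (c : ℤ), Ad a b c ∧ Rel (f i) (f j) a b c) :
    ∃ (s : ℕ → ℕ) (D : ℕ → ℤ), Clq f S s D := by
  obtain ⟨s, D, y, h1, h2, h3⟩ := clique_forms f S hne hf h
  have h4 : ∀ i ∈ S, ∀ j ∈ S, i ≠ j → ∃ (a b : ℕ) (c : ℤ), Ad a b c ∧ Rel (f i) (f j) a b c ∧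
      (a : ℤ) * s j = b * s i ∧ (a : ℤ) * D j - b * D i = c := by
    intro i hi j hj hij
    obtain ⟨a, b, c, hA, hR⟩ := h i hi j hj hij
    obtain ⟨e1, e2⟩ := int_rel _ _ _ _ _ _ y (h2 i hi) (h2 j hj) a b c hR
    exact ⟨a, b, c, hA, hR, e1, e2⟩
  refine ⟨s, D, ⟨h1, fun i hi j hj hij => ?_, h3⟩, h4⟩
  obtain ⟨a, b, c, hA, -, e1, e2⟩ := h4 i hi j hj hij
  exact ⟨a, b, c, hA, e1, e2⟩

theorem F_inj (f : ℕ → ℚ × ℚ) (S : Finset ℕ) (s : ℕ → ℕ) (D : ℕ → ℤ) (h : Clq f S s D) :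
    Set.InjOn (fun j => ((s j, D j) : ℕ × ℤ)) (S : Set ℕ) := by
  intro i hi j hj hij
  by_contra hne
  obtain ⟨a, b, c, hA, -, e1, e2⟩ := h.rel i hi j hj hne
  have h1 : s i = s j := congrArg Prod.fst hij
  have h2 : D i = D j := congrArg Prod.snd hij
  have h3 : (s i : ℤ) ≠ 0 := by exact_mod_cast (h.sys.pos i hi).ne'
  rw [← h1] at e1
  have h4 : (a : ℤ) = b := mul_right_cancel₀ h3 e1
  rw [← h2, h4, sub_self] at e2
  exact hA.2.2.1 e2.symm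

theorem pair_TR (f : ℕ → ℚ × ℚ) (S : Finset ℕ) (s : ℕ → ℕ) (D : ℕ → ℤ) (h : Clq f S s D) (i j : ℕ) (hi : i ∈ S) (hj : j ∈ S)
    (hij : i ≠ j) (hP : Pair (s i, D i) (s j, D j)) : TR (f i) (f j) := by
  obtain ⟨a, b, c, hA, hR, e1, e2⟩ := h.rel j hj i hi hij.symm
  apply TR_symm
  refine ⟨a, b, c, ?_, hR⟩
  unfold Pair at hP
  dsimp only at hP
  have hcop : Nat.Coprime a b := hA.2.2.2.1
  have e1' : a * s i = b * s j := by exact_mod_cast e1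
  obtain ⟨g, hg⟩ : a ∣ s j := hcop.dvd_of_dvd_mul_left (Dvd.intro _ e1')
  have ha : 0 < a := hA.1
  have hsi : s i = b * g := by
    have h1 : a * s i = a * (b * g) := by
      rw [e1', hg]
      ring
    exact Nat.eq_of_mul_eq_mul_left ha h1
  have hg0 : 0 < g := by
    rcases Nat.eq_zero_or_pos g with h0 | h0
    · have h1 := h.sys.pos j hj
      rw [hg, h0, mul_zero] at h1
      exact absurd h1 (lt_irrefl _)
    · exact h0
  have hgcd : Nat.gcd (s i) (s j) = g := by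
    rw [hsi, hg, Nat.gcd_mul_right, hcop.symm.gcd_eq_one, one_mul]
  rw [hgcd] at hP
  have q1 : s j / g = a := by rw [hg, Nat.mul_div_cancel _ hg0]
  have q2 : s i / g = b := by rw [hsi, Nat.mul_div_cancel _ hg0]
  have q3 : ((s j : ℤ) * D i - s i * D j) / (g : ℤ) = c := by
    rw [← e2, hg, hsi]
    push_cast
    have h1 : (a : ℤ) * g * D i - b * g * D j = (a * D i - b * D j) * g := by ring
    rw [h1, Int.mul_ediv_cancel _ (by exact_mod_cast hg0.ne')]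
  rw [q1, q2, q3] at hP
  exact hP

open Classical in
/-- indicator of the bad admissible quadruples -/
noncomputable def qq (s : ℕ → ℕ) (D : ℕ → ℤ) (x y z w : ℕ) : ℝ :=
  if Adm (fun t : Fin 4 => ((s (![x, y, z, w] t), D (![x, y, z, w] t)) : ℕ × ℤ)) ∧
    ∀ i j : Fin 4, i ≠ j → ¬ Pair (s (![x, y, z, w] i), D (![x, y, z, w] i)) (s (![x, y, z, w] j), D (![x, y, z, w] j)) then 1 else 0

theorem qq_nonneg (s : ℕ → ℕ) (D : ℕ → ℤ) (x y z w : ℕ) : 0 ≤ qq s D x y z w := by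
  unfold qq
  split_ifs <;> norm_num

open Classical in
/-- the number of the bad admissible quadruples -/
theorem qq_sum (C δ : ℝ) (hQ : ∀ (F : Fin 4 → Finset (ℕ × ℤ)) (L : ℕ), 1 ≤ L → (∀ i, L ≤ #(F i)) → (∀ i, ∀ f ∈ F i, 0 < f.1) →
    (#{f ∈ Fintype.piFinset F | Adm f ∧ ∀ i j, i ≠ j → ¬ Pair (f i) (f j)} : ℝ) ≤ C * (∏ i, (#(F i) : ℝ)) * (L : ℝ) ^ (-δ))
    (f : ℕ → ℚ × ℚ) (S : Finset ℕ) (hne : S.Nonempty) (s : ℕ → ℕ) (D : ℕ → ℤ) (h : Clq f S s D) :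
    ∑ x ∈ S, ∑ y ∈ S, ∑ z ∈ S, ∑ w ∈ S, qq s D x y z w ≤ C * (#S : ℝ) ^ 4 * (#S : ℝ) ^ (-δ) := by
  set F : ℕ → ℕ × ℤ := fun j => (s j, D j) with hF
  have hinj := F_inj f S s D h
  have hcard : #(S.image F) = #S := Finset.card_image_of_injOn hinj
  have h1 := hQ (fun _ => S.image F) (#S) (Finset.card_pos.2 hne) (fun _ => hcard.ge) (by
    intro _ g hg
    obtain ⟨j, hj, rfl⟩ := Finset.mem_image.1 hg
    exact h.sys.pos j hj)
  have h2 : (∏ _i : Fin 4, ((#(S.image F) : ℕ) : ℝ)) = (#S : ℝ) ^ 4 := by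
    rw [hcard, Finset.prod_const, Finset.card_univ, Fintype.card_fin]
  rw [h2] at h1
  refine le_trans ?_ h1
  have h3 : ∑ x ∈ S, ∑ y ∈ S, ∑ z ∈ S, ∑ w ∈ S, qq s D x y z w =
      ((#{t ∈ S ×ˢ S ×ˢ S ×ˢ S | Adm (fun u : Fin 4 => ((s (![t.1, t.2.1, t.2.2.1, t.2.2.2] u), D (![t.1, t.2.1, t.2.2.1, t.2.2.2] u)) : ℕ × ℤ)) ∧
        ∀ i j : Fin 4, i ≠ j → ¬ Pair (s (![t.1, t.2.1, t.2.2.1, t.2.2.2] i), D (![t.1, t.2.1, t.2.2.1, t.2.2.2] i))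
          (s (![t.1, t.2.1, t.2.2.1, t.2.2.2] j), D (![t.1, t.2.1, t.2.2.1, t.2.2.2] j))} : ℕ) : ℝ) := by
    rw [Finset.card_filter, Nat.cast_sum]
    simp only [Finset.sum_product]
    refine Finset.sum_congr rfl (fun x _ => Finset.sum_congr rfl (fun y _ => Finset.sum_congr rfl (fun z _ =>
      Finset.sum_congr rfl (fun w _ => ?_))))
    unfold qq
    split_ifs <;> simp
  rw [h3]
  refine Nat.cast_le.2 (Finset.card_le_card_of_injOn (fun t => fun u : Fin 4 => F (![t.1, t.2.1, t.2.2.1, t.2.2.2] u)) ?_ ?_)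
  · rintro ⟨x, y, z, w⟩ ht
    rw [Finset.mem_coe, Finset.mem_filter] at ht
    simp only [Finset.mem_product] at ht
    obtain ⟨⟨hx, hy, hz, hw⟩, hadm, hpair⟩ := ht
    rw [Finset.mem_coe, Finset.mem_filter, Fintype.mem_piFinset]
    refine ⟨fun u => ?_, hadm, hpair⟩
    refine Finset.mem_image_of_mem _ ?_
    fin_cases u
    · exact hx
    · exact hy
    · exact hz
    · exact hw
  · rintro ⟨x, y, z, w⟩ ht ⟨x', y', z', w'⟩ ht' heq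
    rw [Finset.mem_coe, Finset.mem_filter] at ht ht'
    simp only [Finset.mem_product] at ht ht'
    obtain ⟨⟨hx, hy, hz, hw⟩, -⟩ := ht
    obtain ⟨⟨hx', hy', hz', hw'⟩, -⟩ := ht'
    have e0 : x = x' := hinj hx hx' (congrFun heq 0)
    have e1 : y = y' := hinj hy hy' (congrFun heq 1)
    have e2 : z = z' := hinj hz hz' (congrFun heq 2)
    have e3 : w = w' := hinj hw hw' (congrFun heq 3)
    rw [e0, e1, e2, e3]

/-- an admissible quadruple without a true quotient -/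
theorem qq_one (f : ℕ → ℚ × ℚ) (S : Finset ℕ) (s : ℕ → ℕ) (D : ℕ → ℤ) (h : Clq f S s D) (x y z w : ℕ)
    (hx : x ∈ S) (hy : y ∈ S) (hz : z ∈ S) (hw : w ∈ S)
    (h1 : x ≠ y ∧ ¬ TR (f x) (f y)) (h2 : x ≠ z ∧ ¬ TR (f x) (f z)) (h3 : x ≠ w ∧ ¬ TR (f x) (f w))
    (h4 : y ≠ z ∧ ¬ TR (f y) (f z)) (h5 : y ≠ w ∧ ¬ TR (f y) (f w)) (h6 : z ≠ w ∧ ¬ TR (f z) (f w))
    (n : ℕ) (k1 : ¬ (3 : ℤ) ∣ s x * n + D x) (k2 : ¬ (3 : ℤ) ∣ s y * n + D y) (k3 : ¬ (3 : ℤ) ∣ s z * n + D z)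
    (k4 : ¬ (3 : ℤ) ∣ s w * n + D w) : qq s D x y z w = 1 := by
  unfold qq
  rw [if_pos]
  have hmem : ∀ i : Fin 4, (![x, y, z, w] : Fin 4 → ℕ) i ∈ S := by
    intro i
    fin_cases i
    · exact hx
    · exact hy
    · exact hz
    · exact hw
  refine ⟨adm4 S s D h.sys ![x, y, z, w] hmem ⟨n, fun i => ?_⟩, ?_⟩
  · fin_cases i
    · exact k1
    · exact k2
    · exact k3
    · exact k4
  · have key : ∀ u v : ℕ, u ∈ S → v ∈ S → (u ≠ v ∧ ¬ TR (f u) (f v)) → ¬ Pair (s u, D u) (s v, D v) ∧ ¬ Pair (s v, D v) (s u, D u) := by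
      intro u v hu hv huv
      exact ⟨fun hP => huv.2 (pair_TR f S s D h u v hu hv huv.1 hP),
        fun hP => huv.2 (TR_symm _ _ (pair_TR f S s D h v u hv hu huv.1.symm hP))⟩
    have c1 := key x y hx hy h1
    have c2 := key x z hx hz h2
    have c3 := key x w hx hw h3
    have c4 := key y z hy hz h4
    have c5 := key y w hy hw h5
    have c6 := key z w hz hw h6
    intro i j hij
    fin_cases i <;> fin_cases j
    · exact absurd rfl hij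
    · exact c1.1
    · exact c2.1
    · exact c3.1
    · exact c1.2
    · exact absurd rfl hij
    · exact c4.1
    · exact c5.1
    · exact c2.2
    · exact c4.2
    · exact absurd rfl hij
    · exact c6.1
    · exact c3.2
    · exact c5.2
    · exact c6.2
    · exact absurd rfl hij

end Pool.Agent.helper4.UX
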