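import Pool.Agent.helper4.UX.Count

/-!
# Cliques of cases (MP_bf63dc_nt): a quarter (a third) of all quotients are true
-/

set_option autoImplicit false

namespace Pool.Agent.helper4.UX

open Finset Pool.Agent.IT Pool.Agent.AT

open Classical in
/-- indicator of the pairs without a true quotient -/
noncomputable def rr (f : ℕ → ℚ × ℚ) (i j : ℕ) : ℝ := if i ≠ j ∧ ¬ TR (f i) (f j) then 1 else 0

theorem rr_01 (f : ℕ → ℚ × ℚ) (i j : ℕ) : rr f i j = 0 ∨ rr f i j = 1 := by
  unfold rr
  split_ifs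
  · exact Or.inr rfl
  · exact Or.inl rfl

theorem rr_symm (f : ℕ → ℚ × ℚ) (i j : ℕ) : rr f i j = rr f j i := by
  unfold rr
  have h : (i ≠ j ∧ ¬ TR (f i) (f j)) ↔ (j ≠ i ∧ ¬ TR (f j) (f i)) :=
    ⟨fun h => ⟨h.1.symm, fun h1 => h.2 (TR_symm _ _ h1)⟩, fun h => ⟨h.1.symm, fun h1 => h.2 (TR_symm _ _ h1)⟩⟩
  by_cases h1 : i ≠ j ∧ ¬ TR (f i) (f j)
  · rw [if_pos h1, if_pos (h.1 h1)]
  · rw [if_neg h1, if_neg (fun h2 => h1 (h.2 h2))]

theorem rr_one (f : ℕ → ℚ × ℚ) (i j : ℕ) (h : rr f i j = 1) : i ≠ j ∧ ¬ TR (f i) (f j) := by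
  by_contra h1
  unfold rr at h
  rw [if_neg h1] at h
  exact zero_ne_one h

theorem TR_irr (f : ℚ × ℚ) (hf : 0 < f.1) : ¬ TR f f := by
  rintro ⟨a, b, c, hT, h1, h2⟩
  have h3 : (a : ℚ) = b := mul_right_cancel₀ hf.ne' h1
  have h4 : (c : ℚ) = 0 := by
    rw [← h2, h3, sub_self]
  exact hT.2.2.1 (by exact_mod_cast h4)

/-- all pairs are diagonal, without true quotient, or with true quotient -/
theorem total (f : ℕ → ℚ × ℚ) (S : Finset ℕ) :
    (#S : ℝ) ^ 2 ≤ (#S : ℝ) + ∑ i ∈ S, ∑ j ∈ S, rr f i j + ({p : ℕ × ℕ | p.1 ∈ S ∧ p.2 ∈ S ∧ TR (f p.1) (f p.2)}.ncard : ℝ) := by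
  classical
  have h1 : {p : ℕ × ℕ | p.1 ∈ S ∧ p.2 ∈ S ∧ TR (f p.1) (f p.2)} = (↑({p ∈ S ×ˢ S | TR (f p.1) (f p.2)}) : Set (ℕ × ℕ)) := by
    ext p
    simp only [Set.mem_ofPred_eq, Finset.coe_filter, Finset.mem_product, and_assoc]
  rw [h1, Set.ncard_coe_finset, Finset.card_filter, Nat.cast_sum, Finset.sum_product]
  have h2 : (#S : ℝ) = ∑ i ∈ S, ∑ j ∈ S, (if i = j then (1 : ℝ) else 0) := by
    rw [Finset.sum_congr rfl (fun i hi => by rw [Finset.sum_ite_eq, if_pos hi])]
    simp
  have h3 : (#S : ℝ) ^ 2 = ∑ i ∈ S, ∑ j ∈ S, (1 : ℝ) := by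
    simp [sq]
  rw [h3]
  nth_rewrite 1 [h2]
  rw [← Finset.sum_add_distrib, ← Finset.sum_add_distrib]
  refine Finset.sum_le_sum (fun i _ => ?_)
  rw [← Finset.sum_add_distrib, ← Finset.sum_add_distrib]
  refine Finset.sum_le_sum (fun j _ => ?_)
  have hr0 : 0 ≤ rr f i j := by rcases rr_01 f i j with h | h <;> rw [h] <;> norm_num
  by_cases hij : i = j
  · rw [if_pos hij]
    have : (0 : ℝ) ≤ ((if TR (f i) (f j) then (1 : ℕ) else 0 : ℕ) : ℝ) := Nat.cast_nonneg _
    simp only
    linarith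
  · rw [if_neg hij]
    by_cases hT : TR (f i) (f j)
    · simp only [if_pos hT]
      push_cast
      linarith
    · have h4 : rr f i j = 1 := by
        unfold rr
        rw [if_pos ⟨hij, hT⟩]
      rw [h4]
      have : (0 : ℝ) ≤ ((if TR (f i) (f j) then (1 : ℕ) else 0 : ℕ) : ℝ) := Nat.cast_nonneg _
      simp only
      linarith

/-- **A quarter of all quotients of a clique are true.** -/
theorem quarter : ∃ C δ : ℝ, 0 < C ∧ 0 < δ ∧ ∀ (f : ℕ → ℚ × ℚ) (S : Finset ℕ), (∀ i ∈ S, 0 < (f i).1) →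
    (∀ i ∈ S, ∀ j ∈ S, i ≠ j → ∃ (a b : ℕ) (c : ℤ), Ad a b c ∧ Rel (f i) (f j) a b c) →
    (#S : ℝ) ^ 2 / 4 - C * (#S : ℝ) ^ (2 - δ) ≤ ({p : ℕ × ℕ | p.1 ∈ S ∧ p.2 ∈ S ∧ TR (f p.1) (f p.2)}.ncard : ℝ) ∧
    ((∀ i ∈ S, ∀ j ∈ S, ∀ k ∈ S, i ≠ j → i ≠ k → j ≠ k → ∃ (a b : ℕ) (c : ℤ), Ad a b c ∧ (3 : ℤ) ∣ a * b * c ∧
      (Rel (f i) (f j) a b c ∨ Rel (f i) (f k) a b c ∨ Rel (f j) (f k) a b c)) →
      (#S : ℝ) ^ 2 / 3 - C * (#S : ℝ) ^ (2 - δ) ≤ ({p : ℕ × ℕ | p.1 ∈ S ∧ p.2 ∈ S ∧ TR (f p.1) (f p.2)}.ncard : ℝ)) := by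
  classical
  obtain ⟨C, δ, hC, hδ, hδ1, hQ⟩ := QPc_all
  refine ⟨1 + 40 / 3 * C, δ, by positivity, hδ, fun f S hf h => ?_⟩
  rcases Finset.eq_empty_or_nonempty S with rfl | hne
  · have h0 : (((∅ : Finset ℕ).card : ℕ) : ℝ) = 0 := by simp
    rw [h0, Real.zero_rpow (by linarith)]
    have h1 : (0 : ℝ) ≤ (({p : ℕ × ℕ | p.1 ∈ (∅ : Finset ℕ) ∧ p.2 ∈ (∅ : Finset ℕ) ∧ TR (f p.1) (f p.2)}.ncard : ℕ) : ℝ) := Nat.cast_nonneg _
    exact ⟨by linarith, fun _ => by linarith⟩
  obtain ⟨s, D, hc⟩ := Clq_of f S hne hf h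
  obtain ⟨n, hn⟩ : ∃ n : ℝ, n = #S := ⟨_, rfl⟩
  have hn1 : 1 ≤ n := by
    rw [hn]
    exact_mod_cast Finset.card_pos.2 hne
  have hn0 : 0 < n := by linarith
  have hqs := qq_sum C δ hQ f S hne s D hc
  rw [← hn] at hqs
  have hpow : n ^ (2 - δ) = n ^ 2 * n ^ (-δ) := by
    rw [sub_eq_add_neg, Real.rpow_add hn0]
    norm_num
  have hlin : n ≤ n ^ (2 - δ) := by
    calc n = n ^ (1 : ℝ) := (Real.rpow_one n).symm
      _ ≤ n ^ (2 - δ) := Real.rpow_le_rpow_of_exponent_le hn1 (by linarith)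
  have htot := total f S
  rw [← hn] at htot
  constructor
  · have h5 := MM5 S (rr f) (qq s D) (rr_01 f) (rr_symm f) (by
      intro x hx y hy z hz w hw v hv
      have hpos : 0 ≤ qq s D x y z w + qq s D x y z v + qq s D x y w v + qq s D x z w v + qq s D y z w v := by
        have := qq_nonneg s D
        have a1 := this x y z w
        have a2 := this x y z v
        have a3 := this x y w v
        have a4 := this x z w v
        have a5 := this y z w v
        linarith
      rcases rr_01 f x y with h1 | h1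
      · rw [h1]; simpa using hpos
      rcases rr_01 f x z with h2 | h2
      · rw [h2]; simpa using hpos
      rcases rr_01 f y z with h3 | h3
      · rw [h3]; simpa using hpos
      rcases rr_01 f x w with h4 | h4
      · rw [h4]; simpa using hpos
      rcases rr_01 f y w with h5 | h5
      · rw [h5]; simpa using hpos
      rcases rr_01 f z w with h6 | h6
      · rw [h6]; simpa using hpos
      rcases rr_01 f x v with h7 | h7
      · rw [h7]; simpa using hpos
      rcases rr_01 f y v with h8 | h8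
      · rw [h8]; simpa using hpos
      rcases rr_01 f z v with h9 | h9
      · rw [h9]; simpa using hpos
      rcases rr_01 f w v with h10 | h10
      · rw [h10]; simpa using hpos
      rw [h1, h2, h3, h4, h5, h6, h7, h8, h9, h10]
      have k1 := rr_one f _ _ h1
      have k2 := rr_one f _ _ h2
      have k3 := rr_one f _ _ h3
      have k4 := rr_one f _ _ h4
      have k5 := rr_one f _ _ h5
      have k6 := rr_one f _ _ h6
      have k7 := rr_one f _ _ h7
      have k8 := rr_one f _ _ h8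
      have k9 := rr_one f _ _ h9
      have k10 := rr_one f _ _ h10
      have hmem : ∀ i : Fin 5, (![x, y, z, w, v] : Fin 5 → ℕ) i ∈ S := by
        intro i
        fin_cases i
        · exact hx
        · exact hy
        · exact hz
        · exact hw
        · exact hv
      obtain ⟨o, m, ho⟩ := five S s D hc.sys ![x, y, z, w, v] hmem
      have nn := qq_nonneg s D
      have a1 := nn x y z w
      have a2 := nn x y z v
      have a3 := nn x y w v
      have a4 := nn x z w v
      have a5 := nn y z w v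
      fin_cases o
      · have e := qq_one f S s D hc y z w v hy hz hw hv k3 k5 k8 k6 k9 k10 m (ho 1 (by decide)) (ho 2 (by decide)) (ho 3 (by decide)) (ho 4 (by decide))
        linarith
      · have e := qq_one f S s D hc x z w v hx hz hw hv k2 k4 k7 k6 k9 k10 m (ho 0 (by decide)) (ho 2 (by decide)) (ho 3 (by decide)) (ho 4 (by decide))
        linarith
      · have e := qq_one f S s D hc x y w v hx hy hw hv k1 k4 k7 k5 k8 k10 m (ho 0 (by decide)) (ho 1 (by decide)) (ho 3 (by decide)) (ho 4 (by decide))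
        linarith
      · have e := qq_one f S s D hc x y z v hx hy hz hv k1 k2 k7 k3 k8 k9 m (ho 0 (by decide)) (ho 1 (by decide)) (ho 2 (by decide)) (ho 4 (by decide))
        linarith
      · have e := qq_one f S s D hc x y z w hx hy hz hw k1 k2 k4 k3 k5 k6 m (ho 0 (by decide)) (ho 1 (by decide)) (ho 2 (by decide)) (ho 3 (by decide))
        linarith)
    rw [← hn] at h5
    obtain ⟨N2, hN2'⟩ : ∃ N2, N2 = ∑ i ∈ S, ∑ j ∈ S, rr f i j := ⟨_, rfl⟩
    rw [← hN2'] at h5 htot
    have h6 : n ^ 2 * N2 ≤ n ^ 2 * (3 / 4 * n ^ 2 + 40 / 3 * C * n ^ (2 - δ)) := by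
      rw [hpow]
      nlinarith
    have h7 := le_of_mul_le_mul_left h6 (by positivity)
    rw [← hn]
    linarith
  · intro hT3
    have h4 := MM4 S (rr f) (qq s D) (rr_01 f) (rr_symm f) (by
      intro x hx y hy z hz w hw
      have hpos := qq_nonneg s D x y z w
      rcases rr_01 f x y with h1 | h1
      · rw [h1]; simpa using hpos
      rcases rr_01 f x z with h2 | h2
      · rw [h2]; simpa using hpos
      rcases rr_01 f x w with h3 | h3
      · rw [h3]; simpa using hpos
      rcases rr_01 f y z with h4 | h4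
      · rw [h4]; simpa using hpos
      rcases rr_01 f y w with h5 | h5
      · rw [h5]; simpa using hpos
      rcases rr_01 f z w with h6 | h6
      · rw [h6]; simpa using hpos
      rw [h1, h2, h3, h4, h5, h6]
      have k1 := rr_one f _ _ h1
      have k2 := rr_one f _ _ h2
      have k3 := rr_one f _ _ h3
      have k4 := rr_one f _ _ h4
      have k5 := rr_one f _ _ h5
      have k6 := rr_one f _ _ h6
      have hmem : ∀ i : Fin 4, (![x, y, z, w] : Fin 4 → ℕ) i ∈ S := by
        intro i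
        fin_cases i
        · exact hx
        · exact hy
        · exact hz
        · exact hw
      -- no obstruction at 3
      have hex : ∃ m : ℕ, ∀ i : Fin 4, ¬ (3 : ℤ) ∣ s ((![x, y, z, w] : Fin 4 → ℕ) i) * m + D ((![x, y, z, w] : Fin 4 → ℕ) i) := by
        by_contra hcon
        push Not at hcon
        obtain ⟨i₀, h0⟩ := hcon 0
        obtain ⟨i₁, h1'⟩ := hcon 1
        obtain ⟨i₂, h2'⟩ := hcon 2
        obtain ⟨u₀, hu₀⟩ : ∃ u, u = (![x, y, z, w] : Fin 4 → ℕ) i₀ := ⟨_, rfl⟩
        obtain ⟨u₁, hu₁⟩ : ∃ u, u = (![x, y, z, w] : Fin 4 → ℕ) i₁ := ⟨_, rfl⟩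
        obtain ⟨u₂, hu₂⟩ : ∃ u, u = (![x, y, z, w] : Fin 4 → ℕ) i₂ := ⟨_, rfl⟩
        have m0 : u₀ ∈ S := hu₀ ▸ hmem i₀
        have m1 : u₁ ∈ S := hu₁ ▸ hmem i₁
        have m2 : u₂ ∈ S := hu₂ ▸ hmem i₂
        rw [← hu₀] at h0
        rw [← hu₁] at h1'
        rw [← hu₂] at h2'
        have hp3 : Prime (3 : ℤ) := Int.prime_three
        -- two forms with different roots have a case not divisible by 3
        have key : ∀ u ∈ S, ∀ v ∈ S, ∀ m m' : ℕ, m < 3 → m' < 3 → m ≠ m' → (3 : ℤ) ∣ s u * m + D u → (3 : ℤ) ∣ s v * m' + D v →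
            u ≠ v ∧ ∀ (a b : ℕ) (c : ℤ), Ad a b c → Rel (f u) (f v) a b c → ¬ (3 : ℤ) ∣ a * b * c := by
          intro u hu v hv m m' hm hm' hmm e1 e2
          have huv : u ≠ v := by
            intro h0
            rw [← h0] at e2
            exact hmm (root3 S s D hc.sys u hu m m' hm hm' e1 e2)
          refine ⟨huv, fun a b c hA hR h3 => ?_⟩
          have hsu : ¬ (3 : ℤ) ∣ s u := fun h8 => prim S s D hc.sys 3 Nat.prime_three u hu h8 ((dvd_add_right (h8.mul_right _)).1 e1)
          have hsv : ¬ (3 : ℤ) ∣ s v := fun h8 => prim S s D hc.sys 3 Nat.prime_three v hv h8 ((dvd_add_right (h8.mul_right _)).1 e2)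
          -- the relation in integers for this `a, b, c`
          obtain ⟨a', b', c', hA', hR', r1, r2⟩ := hc.rel u hu v hv huv
          have hrat : (a : ℤ) * b' = a' * b := by
            have q1 : (a : ℚ) * b' = a' * b := by
              have q2 : ((a : ℚ) * b') * (f u).1 = (a' * b) * (f u).1 := by
                calc ((a : ℚ) * b') * (f u).1 = a * (b' * (f u).1) := by ring
                  _ = a * (a' * (f v).1) := by rw [hR'.1]
                  _ = a' * (a * (f v).1) := by ring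
                  _ = (a' * b) * (f u).1 := by rw [hR.1]; ring
              exact mul_right_cancel₀ (hf u hu).ne' q2
            exact_mod_cast q1
          have haa : a = a' := by
            have q1 : a * b' = a' * b := by exact_mod_cast hrat
            refine Nat.dvd_antisymm ?_ ?_
            · exact hA.2.2.2.1.dvd_of_dvd_mul_right (Dvd.intro _ q1)
            · exact hA'.2.2.2.1.dvd_of_dvd_mul_right (Dvd.intro _ q1.symm)
          have hbb : b = b' := by
            have q1 : a * b' = a' * b := by exact_mod_cast hrat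
            rw [← haa] at q1
            exact (Nat.eq_of_mul_eq_mul_left hA.1 q1).symm
          have hcc : c = c' := by
            have q1 : (c : ℚ) = c' := by
              rw [← hR.2, ← hR'.2, haa, hbb]
            exact_mod_cast q1
          rw [← haa, ← hbb] at r1
          rw [← haa, ← hbb, ← hcc] at r2
          have ha3 : ¬ (3 : ℤ) ∣ a := by
            intro h8
            have h9 : (3 : ℤ) ∣ b * s u := by
              rw [← r1]
              exact h8.mul_right _
            exact cop_dvd 3 Nat.prime_three _ _ (Nat.isCoprime_iff_coprime.2 hA.2.2.2.1) h8 ((hp3.dvd_or_dvd h9).resolve_right hsu)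
          have hb3 : ¬ (3 : ℤ) ∣ b := by
            intro h8
            have h9 : (3 : ℤ) ∣ a * s v := by
              rw [r1]
              exact h8.mul_right _
            exact hsv ((hp3.dvd_or_dvd h9).resolve_left ha3)
          have hc3 : ¬ (3 : ℤ) ∣ c := by
            intro h8
            have h9 : (a : ℤ) * (s v * m + D v) = b * (s u * m + D u) + c := by
              linear_combination (m : ℤ) * r1 + r2
            have h10 : (3 : ℤ) ∣ a * (s v * m + D v) := by
              rw [h9]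
              exact dvd_add (e1.mul_left _) h8
            have h11 := (hp3.dvd_or_dvd h10).resolve_left ha3
            exact hmm (root3 S s D hc.sys v hv m m' hm hm' h11 e2)
          rcases hp3.dvd_or_dvd h3 with h8 | h8
          · rcases hp3.dvd_or_dvd h8 with h9 | h9
            · exact ha3 h9
            · exact hb3 h9
          · exact hc3 h8
        have c01 := key u₀ m0 u₁ m1 0 1 (by omega) (by omega) (by omega) h0 h1'
        have c02 := key u₀ m0 u₂ m2 0 2 (by omega) (by omega) (by omega) h0 h2'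
        have c12 := key u₁ m1 u₂ m2 1 2 (by omega) (by omega) (by omega) h1' h2'
        obtain ⟨a, b, c, hA, h3, hR | hR | hR⟩ := hT3 u₀ m0 u₁ m1 u₂ m2 c01.1 c02.1 c12.1
        · exact c01.2 a b c hA hR h3
        · exact c02.2 a b c hA hR h3
        · exact c12.2 a b c hA hR h3
      obtain ⟨m, hm⟩ := hex
      have e := qq_one f S s D hc x y z w hx hy hz hw k1 k2 k3 k4 k5 k6 m (hm 0) (hm 1) (hm 2) (hm 3)
      rw [e]
      norm_num)
    rw [← hn] at h4
    obtain ⟨N2, hN2'⟩ : ∃ N2, N2 = ∑ i ∈ S, ∑ j ∈ S, rr f i j := ⟨_, rfl⟩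
    rw [← hN2'] at h4 htot
    have hq0 : 0 ≤ ∑ x ∈ S, ∑ y ∈ S, ∑ z ∈ S, ∑ w ∈ S, qq s D x y z w :=
      Finset.sum_nonneg (fun x _ => Finset.sum_nonneg (fun y _ => Finset.sum_nonneg (fun z _ => Finset.sum_nonneg (fun w _ => qq_nonneg s D x y z w))))
    have h6 : n ^ 2 * N2 ≤ n ^ 2 * (2 / 3 * n ^ 2 + 40 / 3 * C * n ^ (2 - δ)) := by
      rw [hpow]
      nlinarith
    have h7 := le_of_mul_le_mul_left h6 (by positivity)
    rw [← hn]
    linarith

end Pool.Agent.helper4.UX
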