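import Pool.Agent.helper4.UX.NT
import Pool.Agent.helper4.UX.Build

/-!
# Universal exponents (MP_bf63dc_nt): finite forms
-/

set_option autoImplicit false

namespace Pool.Agent.helper4.UX

open Finset Pool.Agent.AT Pool.Agent.IT

/-- finitely many subset-closed properties at once -/
theorem nest (R : ℕ → ℕ) : ∀ (Ps : List (Finset ℕ → Prop)),
    (∀ P ∈ Ps, (∀ S T : Finset ℕ, S ⊆ T → P T → P S) ∧
      ∀ (s : ℕ) (T : Finset ℕ), R s ≤ #T → ∃ S ⊆ T, #S = s ∧ P S) →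
    ∀ (s : ℕ) (T : Finset ℕ), R^[Ps.length] s ≤ #T → ∃ S ⊆ T, #S = s ∧ ∀ P ∈ Ps, P S := by
  intro Ps
  induction Ps with
  | nil =>
    intro _ s T hT
    obtain ⟨S, hS, hSc⟩ := Finset.exists_subset_card_eq hT
    exact ⟨S, hS, hSc, fun P hP => absurd hP List.not_mem_nil⟩
  | cons P Ps ih =>
    intro h s T hT
    rw [List.length_cons, Function.iterate_succ_apply'] at hT
    obtain ⟨U, hU, hUc, hUP⟩ := (h P List.mem_cons_self).2 _ T hT
    obtain ⟨S, hS, hSc, hSP⟩ := ih (fun Q hQ => h Q (List.mem_cons_of_mem _ hQ)) s U hUc.ge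
    refine ⟨S, hS.trans hU, hSc, fun Q hQ => ?_⟩
    rcases List.mem_cons.1 hQ with rfl | hQ
    · exact (h _ List.mem_cons_self).1 S U hS hUP
    · exact hSP Q hQ

/-- `L` cases and their first `s` iterates: every set of `K` exponents has a difference `m` with all `j m` true -/
theorem delta_all (L s : ℕ) : ∃ K : ℕ, ∀ C : Fin L → ℕ × ℕ × ℤ, (∀ l, Ad (C l).1 (C l).2.1 (C l).2.2) →
    ∀ T : Finset ℕ, K ≤ #T → ∃ x ∈ T, ∃ y ∈ T, x < y ∧
      ∀ l, ∀ j ∈ Icc 1 s, It (C l).1 (C l).2.1 (C l).2.2 (j * (y - x)) := by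
  classical
  choose R hR using NT
  refine ⟨R^[((Finset.univ : Finset (Fin L)) ×ˢ Icc 1 s).toList.length] 2, fun C hC T hT => ?_⟩
  obtain ⟨S, hS, hSc, hSP⟩ := nest R (((Finset.univ : Finset (Fin L)) ×ˢ Icc 1 s).toList.map
    (fun lj => fun S : Finset ℕ => Con (C lj.1).1 (C lj.1).2.1 (C lj.1).2.2 (S.image (fun x => lj.2 * x))))
    (by
      intro P hP
      obtain ⟨⟨l, j⟩, hlj, rfl⟩ := List.mem_map.1 hP
      rw [Finset.mem_toList, Finset.mem_product, Finset.mem_Icc] at hlj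
      refine ⟨fun S T hST hT => Con_mono _ _ _ _ _ (Finset.image_subset_image hST) hT, fun s T hT => ?_⟩
      have hinj : Function.Injective (fun x : ℕ => j * x) := fun x y hxy =>
        Nat.eq_of_mul_eq_mul_left (by have := hlj.2.1; omega) hxy
      obtain ⟨S, hS, hSc, hSC⟩ := hR s _ _ _ (hC l) (T.image (fun x => j * x))
        (by rw [Finset.card_image_of_injective _ hinj]; exact hT)
      obtain ⟨S', hS', rfl⟩ := Finset.subset_image_iff.1 hS
      rw [Finset.card_image_of_injective _ hinj] at hSc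
      exact ⟨S', hS', hSc, hSC⟩) 2 T (by rw [List.length_map]; exact hT)
  obtain ⟨x, hx, y, hy, hxy⟩ : ∃ x ∈ S, ∃ y ∈ S, x < y := by
    obtain ⟨x, hx, y, hy, hne⟩ := Finset.one_lt_card.1 (show 1 < #S by omega)
    rcases lt_or_gt_of_ne hne with h1 | h1
    · exact ⟨x, hx, y, hy, h1⟩
    · exact ⟨y, hy, x, hx, h1⟩
  refine ⟨x, hS hx, y, hS hy, hxy, fun l j hj => ?_⟩
  have h1 := hSP _ (List.mem_map.2 ⟨(l, j), by
    rw [Finset.mem_toList, Finset.mem_product]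
    exact ⟨Finset.mem_univ _, hj⟩, rfl⟩)
  have hj1 : 0 < j := (Finset.mem_Icc.1 hj).1
  have h2 := h1.2 (j * x) (Finset.mem_image_of_mem _ hx) (j * y) (Finset.mem_image_of_mem _ hy)
    (Nat.mul_lt_mul_of_pos_left hxy hj1)
  rw [Nat.mul_sub]
  exact h2

/-- every set of at least `N` numbers has two elements with `P` of the difference -/
def HasDelta (P : ℕ → Prop) (N : ℕ) : Prop :=
  ∀ T : Finset ℕ, N ≤ #T → ∃ x ∈ T, ∃ y ∈ T, x < y ∧ P (y - x)

theorem dilate (P : ℕ → Prop) (N : ℕ) (h : HasDelta P N) (d : ℕ) (hd : 1 ≤ d) :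
    ∃ k, 1 ≤ k ∧ k ≤ N ∧ P (d * k) := by
  obtain ⟨x, hx, y, hy, hxy, h1⟩ := h ((Finset.range N).image (fun i => d * i))
    (by
      rw [Finset.card_image_of_injective _ (fun i j hij => by
        have h2 : d * i = d * j := hij
        exact Nat.eq_of_mul_eq_mul_left (by omega) h2), Finset.card_range])
  obtain ⟨i, hi, rfl⟩ := Finset.mem_image.1 hx
  obtain ⟨j, hj, rfl⟩ := Finset.mem_image.1 hy
  rw [Finset.mem_range] at hi hj
  have hij : i < j := lt_of_mul_lt_mul_left hxy (Nat.zero_le _)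
  refine ⟨j - i, by omega, by omega, ?_⟩
  rw [Nat.mul_sub]
  exact h1

open Classical in
/-- a positive proportion, with an absolute constant -/
theorem prop (P : ℕ → Prop) (N : ℕ) (h : HasDelta P N) (M : ℕ) :
    M / N ≤ N * #{m ∈ Icc 1 M | P m} := by
  have hN : 0 < N := by
    rcases Nat.eq_zero_or_pos N with rfl | h0
    · obtain ⟨x, hx, -⟩ := h ∅ (Nat.zero_le _)
      exact absurd hx (Finset.notMem_empty x)
    · exact h0
  have h1 : ∀ d : ℕ, ∃ k, 1 ≤ d → 1 ≤ k ∧ k ≤ N ∧ P (d * k) := fun d => by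
    by_cases hd : 1 ≤ d
    · obtain ⟨k, hk⟩ := dilate P N h d hd
      exact ⟨k, fun _ => hk⟩
    · exact ⟨0, fun h2 => absurd h2 hd⟩
  choose k hk using h1
  have h2 : #(Icc 1 (M / N)) ≤ #((Icc 1 N) ×ˢ {m ∈ Icc 1 M | P m}) := by
    refine Finset.card_le_card_of_injOn (fun d => (k d, d * k d)) ?_ ?_
    · intro d hd
      rw [Finset.mem_coe, Finset.mem_Icc] at hd
      obtain ⟨h3, h4, h5⟩ := hk d hd.1
      rw [Finset.mem_coe, Finset.mem_product, Finset.mem_Icc, Finset.mem_filter, Finset.mem_Icc]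
      refine ⟨⟨h3, h4⟩, ⟨?_, ?_⟩, h5⟩
      · have : 0 < d * k d := by
          have := hd.1
          positivity
        exact this
      · calc d * k d ≤ d * N := Nat.mul_le_mul_left _ h4
          _ ≤ M / N * N := Nat.mul_le_mul_right _ hd.2
          _ ≤ M := Nat.div_mul_le_self _ _
    · intro d hd d' hd' hdd
      rw [Finset.mem_coe, Finset.mem_Icc] at hd hd'
      have h3 : k d = k d' := congrArg Prod.fst hdd
      have h4 : d * k d = d' * k d' := congrArg Prod.snd hdd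
      rw [← h3] at h4
      have h5 := (hk d hd.1).1
      exact Nat.eq_of_mul_eq_mul_right (show 0 < k d by omega) h4
  rw [Finset.card_product, Nat.card_Icc, Nat.card_Icc] at h2
  simpa using h2

theorem prop_n (P : ℕ → Prop) (N : ℕ) (h : HasDelta P N) (M : ℕ) :
    M / N ≤ N * {m : ℕ | 1 ≤ m ∧ m ≤ M ∧ P m}.ncard := by
  classical
  have h1 := prop P N h M
  have h2 : {m : ℕ | 1 ≤ m ∧ m ≤ M ∧ P m} = (↑({m ∈ Icc 1 M | P m}) : Set ℕ) := by
    ext m
    simp only [Set.mem_ofPred_eq, Finset.coe_filter, Finset.mem_Icc, and_assoc]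
  rw [h2, Set.ncard_coe_finset]
  exact h1

theorem prop_all (L s : ℕ) : ∃ K : ℕ, 0 < K ∧ ∀ C : Fin L → ℕ × ℕ × ℤ, (∀ l, Ad (C l).1 (C l).2.1 (C l).2.2) →
    ∀ M : ℕ, K ≤ M → M ≤ K * {m : ℕ | 1 ≤ m ∧ m ≤ M ∧ ∀ l, ∀ j ∈ Icc 1 s, It (C l).1 (C l).2.1 (C l).2.2 (j * m)}.ncard := by
  obtain ⟨N, hN⟩ := delta_all L s
  refine ⟨2 * (N + 1) ^ 2, by positivity, fun C hC M hM => ?_⟩
  have h1 : HasDelta (fun m => ∀ l, ∀ j ∈ Icc 1 s, It (C l).1 (C l).2.1 (C l).2.2 (j * m)) (N + 1) :=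
    fun T hT => hN C hC T (by omega)
  have h2 := prop_n _ _ h1 M
  have h3 : 1 ≤ M / (N + 1) := by
    rw [Nat.one_le_div_iff (by omega)]
    nlinarith
  have h4 : M < (N + 1) * (M / (N + 1) + 1) := by
    have := Nat.lt_mul_div_succ M (show 0 < N + 1 by omega)
    exact this
  obtain ⟨X, hX⟩ : ∃ X, X = {m : ℕ | 1 ≤ m ∧ m ≤ M ∧ ∀ l, ∀ j ∈ Icc 1 s, It (C l).1 (C l).2.1 (C l).2.2 (j * m)}.ncard := ⟨_, rfl⟩
  rw [← hX] at h2 ⊢
  have h5 : (N + 1) * (M / (N + 1) + 1) ≤ (N + 1) * (2 * ((N + 1) * X)) :=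
    Nat.mul_le_mul_left _ (by omega)
  have h6 : (N + 1) * (2 * ((N + 1) * X)) = 2 * (N + 1) ^ 2 * X := by ring
  omega

end Pool.Agent.helper4.UX
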