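import Mathlib

/-!
# Universal exponents (MP_bf63dc_nt): Ramsey's theorem for two colours
-/

set_option autoImplicit false

namespace Pool.Agent.helper4.UX

open Finset

/-- Ramsey's theorem for two colours and finite sets of natural numbers -/
theorem ramsey : ∀ k l : ℕ, ∃ N : ℕ, ∀ (G : ℕ → ℕ → Prop) (T : Finset ℕ), N ≤ #T →
    (∃ S ⊆ T, #S = k ∧ ∀ x ∈ S, ∀ y ∈ S, x < y → G x y) ∨
    (∃ S ⊆ T, #S = l ∧ ∀ x ∈ S, ∀ y ∈ S, x < y → ¬ G x y) := by
  classical
  intro k
  induction k with
  | zero =>
    intro l
    exact ⟨0, fun G T _ => Or.inl ⟨∅, Finset.empty_subset _, rfl, fun x hx => absurd hx (Finset.notMem_empty x)⟩⟩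
  | succ k ihk =>
    intro l
    induction l with
    | zero => exact ⟨0, fun G T _ => Or.inr ⟨∅, Finset.empty_subset _, rfl, fun x hx => absurd hx (Finset.notMem_empty x)⟩⟩
    | succ l ihl =>
      obtain ⟨N₁, h₁⟩ := ihk (l + 1)
      obtain ⟨N₂, h₂⟩ := ihl
      refine ⟨N₁ + N₂ + 1, fun G T hT => ?_⟩
      have hne : T.Nonempty := Finset.card_pos.1 (by omega)
      set v := T.min' hne with hv
      have hvT : v ∈ T := Finset.min'_mem T hne
      have hmin : ∀ y ∈ T.erase v, v < y := fun y hy =>
        lt_of_le_of_ne (Finset.min'_le T y (Finset.mem_of_mem_erase hy)) (Finset.ne_of_mem_erase hy).symm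
      have hc1 : #(T.erase v) = #T - 1 := Finset.card_erase_of_mem hvT
      have hc2 := Finset.card_filter_add_card_filter_not (s := T.erase v) (fun y => G v y)
      by_cases hA : N₁ ≤ #((T.erase v).filter (fun y => G v y))
      · rcases h₁ G _ hA with ⟨S, hS, hSc, hSG⟩ | ⟨S, hS, hSc, hSG⟩
        · left
          have hvS : v ∉ S := by
            intro h0
            have h1 := Finset.mem_of_mem_filter _ (hS h0)
            exact Finset.notMem_erase v T h1
          refine ⟨insert v S, ?_, by rw [Finset.card_insert_of_notMem hvS, hSc], ?_⟩
          · intro x hx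
            rcases Finset.mem_insert.1 hx with rfl | hx
            · exact hvT
            · exact Finset.mem_of_mem_erase (Finset.mem_of_mem_filter _ (hS hx))
          · intro x hx y hy hxy
            rcases Finset.mem_insert.1 hx with rfl | hx
            · rcases Finset.mem_insert.1 hy with rfl | hy
              · exact absurd hxy (lt_irrefl _)
              · exact (Finset.mem_filter.1 (hS hy)).2
            · rcases Finset.mem_insert.1 hy with rfl | hy
              · exact absurd (hmin x (Finset.mem_of_mem_filter _ (hS hx))) (by omega)
              · exact hSG x hx y hy hxy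
        · right
          exact ⟨S, hS.trans ((Finset.filter_subset _ _).trans (Finset.erase_subset _ _)), hSc, hSG⟩
      · have hB : N₂ ≤ #((T.erase v).filter (fun y => ¬ G v y)) := by omega
        rcases h₂ G _ hB with ⟨S, hS, hSc, hSG⟩ | ⟨S, hS, hSc, hSG⟩
        · left
          exact ⟨S, hS.trans ((Finset.filter_subset _ _).trans (Finset.erase_subset _ _)), hSc, hSG⟩
        · right
          have hvS : v ∉ S := by
            intro h0
            have h1 := Finset.mem_of_mem_filter _ (hS h0)
            exact Finset.notMem_erase v T h1
          refine ⟨insert v S, ?_, by rw [Finset.card_insert_of_notMem hvS, hSc], ?_⟩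
          · intro x hx
            rcases Finset.mem_insert.1 hx with rfl | hx
            · exact hvT
            · exact Finset.mem_of_mem_erase (Finset.mem_of_mem_filter _ (hS hx))
          · intro x hx y hy hxy
            rcases Finset.mem_insert.1 hx with rfl | hx
            · rcases Finset.mem_insert.1 hy with rfl | hy
              · exact absurd hxy (lt_irrefl _)
              · exact (Finset.mem_filter.1 (hS hy)).2
            · rcases Finset.mem_insert.1 hy with rfl | hy
              · exact absurd (hmin x (Finset.mem_of_mem_filter _ (hS hx))) (by omega)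
              · exact hSG x hx y hy hxy

end Pool.Agent.helper4.UX
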