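import Pool.Agent.helper99.IT.Spec
import Pool.Agent.helper4.UX.Ramsey

/-!
# Universal exponents (MP_bf63dc_nt): pairwise local conditions are enough (local part)

A rational linear form `f = (r, t)` is `r y + t`, `r > 0`. `Rel f g a b c`: `a g - b f = c` identically.
-/

set_option autoImplicit false

namespace Pool.Agent.helper4.UX

open Finset Pool.Agent.IT

/-- `a g(y) - b f(y) = c` for all `y` -/
def Rel (f g : ℚ × ℚ) (a b : ℕ) (c : ℤ) : Prop :=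
  (a : ℚ) * g.1 = b * f.1 ∧ (a : ℚ) * g.2 - b * f.2 = c

theorem Rel_symm (f g : ℚ × ℚ) (a b : ℕ) (c : ℤ) (h : Rel f g a b c) : Rel g f b a (-c) := by
  refine ⟨h.1.symm, ?_⟩
  have h2 := h.2
  push_cast
  linarith

theorem Ad_symm (a b : ℕ) (c : ℤ) (h : Ad a b c) : Ad b a (-c) := by
  obtain ⟨h1, h2, h3, h4, h5, h6, h7⟩ := h
  refine ⟨h2, h1, neg_ne_zero.2 h3, h4.symm, h6.neg_right, h5.neg_right, ?_⟩
  rintro ⟨k1, k2, k3⟩
  exact h7 ⟨k2, k1, by simpa using k3.neg⟩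

theorem Rel_self (f : ℚ × ℚ) : Rel f f 1 1 0 := by
  refine ⟨rfl, ?_⟩
  simp

/-- the cocycle identities in integers -/
theorem Rel_id (f g h : ℚ × ℚ) (a b a' b' α β : ℕ) (c c' γ : ℤ) (hf : 0 < f.1) (h1 : Rel f g a b c) (h2 : Rel f h a' b' c')
    (h3 : Rel g h α β γ) : (α : ℤ) * a * b' = β * a' * b ∧ (α : ℤ) * a * c' - β * a' * c = γ * a * a' := by
  obtain ⟨h11, h12⟩ := h1
  obtain ⟨h21, h22⟩ := h2
  obtain ⟨h31, h32⟩ := h3
  have e1 : (α : ℚ) * a * b' = β * a' * b := by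
    have h4 : ((α : ℚ) * a * b') * f.1 = (β * a' * b) * f.1 := by
      calc ((α : ℚ) * a * b') * f.1 = α * a * (b' * f.1) := by ring
        _ = a * a' * (α * h.1) := by rw [← h21]; ring
        _ = β * a' * (a * g.1) := by rw [h31]; ring
        _ = (β * a' * b) * f.1 := by rw [h11]; ring
    exact mul_right_cancel₀ hf.ne' h4
  refine ⟨by exact_mod_cast e1, ?_⟩
  have e2 : (α : ℚ) * a * c' - β * a' * c = γ * a * a' := by
    rw [← h12, ← h22, ← h32]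
    linear_combination -f.2 * e1
  exact_mod_cast e2

theorem notdvd_one (l : ℕ) (hl : l.Prime) : ¬ (l : ℤ) ∣ 1 := by
  intro h
  have h1 : l ∣ 1 := by exact_mod_cast h
  exact hl.one_lt.ne' (Nat.dvd_one.1 h1)

theorem cop_dvd (l : ℕ) (hl : l.Prime) (x y : ℤ) (h : IsCoprime x y) (hx : (l : ℤ) ∣ x) : ¬ (l : ℤ) ∣ y := by
  intro hy
  have h1 := h.isUnit_of_dvd' hx hy
  rw [Int.isUnit_iff] at h1
  have h2 := hl.two_le
  omega

/-- the pair `f, g` of forms is good at `l`: if `l` does not divide `a b` then it divides `c` -/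
def Gd (l : ℕ) (f g : ℚ × ℚ) : Prop := ∀ (a b : ℕ) (c : ℤ), Ad a b c → Rel f g a b c → (l : ℤ) ∣ a ∨ (l : ℤ) ∣ b ∨ (l : ℤ) ∣ c

theorem Gd_symm (l : ℕ) (f g : ℚ × ℚ) (h : Gd l f g) : Gd l g f := by
  intro a b c hA hR
  rcases h b a (-c) (Ad_symm _ _ _ hA) (Rel_symm _ _ _ _ _ hR) with h1 | h1 | h1
  · exact Or.inr (Or.inl h1)
  · exact Or.inl h1
  · exact Or.inr (Or.inr ((dvd_neg).1 h1))

/-- **Pigeonhole.** Among more than `l` forms, pairwise related by cases of Q1, two are good at `l`. -/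
theorem pigeon (l : ℕ) (hl : l.Prime) (f : ℕ → ℚ × ℚ) (U : Finset ℕ) (hU : l < #U) (hf : ∀ i ∈ U, 0 < (f i).1) :
    ∃ i ∈ U, ∃ j ∈ U, i < j ∧ Gd l (f i) (f j) := by
  classical
  have : Fact l.Prime := ⟨hl⟩
  by_contra hcon
  push Not at hcon
  have hbad : ∀ i ∈ U, ∀ j ∈ U, i < j → ∃ (a b : ℕ) (c : ℤ), Rel (f i) (f j) a b c ∧ ¬ (l : ℤ) ∣ a ∧ ¬ (l : ℤ) ∣ b ∧ ¬ (l : ℤ) ∣ c := by
    intro i hi j hj hij
    have h1 := hcon i hi j hj hij
    unfold Gd at h1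
    push Not at h1
    obtain ⟨a, b, c, -, hR, ha, hb, hc⟩ := h1
    exact ⟨a, b, c, hR, ha, hb, hc⟩
  have hne : U.Nonempty := Finset.card_pos.1 (by omega)
  set v := U.min' hne with hv
  have hvU : v ∈ U := Finset.min'_mem U hne
  have hdat : ∀ j, ∃ (a b : ℕ) (c : ℤ), j ∈ U → Rel (f v) (f j) a b c ∧ ¬ (l : ℤ) ∣ a ∧ ¬ (l : ℤ) ∣ b ∧ (j = v ∨ ¬ (l : ℤ) ∣ c) ∧ (j = v → c = 0) := by
    intro j
    by_cases hj : j ∈ U
    · rcases eq_or_ne j v with h1 | h1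
      · refine ⟨1, 1, 0, fun _ => ⟨by rw [h1]; exact Rel_self _, ?_, ?_, Or.inl h1, fun _ => rfl⟩⟩
        · exact_mod_cast notdvd_one l hl
        · exact_mod_cast notdvd_one l hl
      · have h2 : v < j := lt_of_le_of_ne (Finset.min'_le U j hj) h1.symm
        obtain ⟨a, b, c, hR, ha, hb, hc⟩ := hbad v hvU j hj h2
        exact ⟨a, b, c, fun _ => ⟨hR, ha, hb, Or.inr hc, fun h0 => absurd h0 h1⟩⟩
    · exact ⟨0, 0, 0, fun h0 => absurd h0 hj⟩
  choose A B C hABC using hdat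
  have hz : ∀ z : ℤ, ((z : ℤ) : ZMod l) = 0 ↔ (l : ℤ) ∣ z := fun z => CharP.intCast_eq_zero_iff (ZMod l) l z
  have hBz : ∀ j ∈ U, ((B j : ℤ) : ZMod l) ≠ 0 := fun j hj h0 => (hABC j hj).2.2.1 ((hz _).1 h0)
  obtain ⟨j, hj, j', hj', hne', heq⟩ := Finset.exists_ne_map_eq_of_card_lt_of_maps_to (s := U) (t := (Finset.univ : Finset (ZMod l)))
    (by rw [Finset.card_univ, ZMod.card]; exact hU) (f := fun j => ((C j : ℤ) : ZMod l) / ((B j : ℤ) : ZMod l))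
    (fun _ _ => Finset.mem_univ _)
  wlog hlt : j < j' generalizing j j' with H
  · exact H j' hj' j hj hne'.symm heq.symm (lt_of_le_of_ne (not_lt.1 hlt) hne'.symm)
  obtain ⟨α, β, γ, hR, hα, hβ, hγ⟩ := hbad j hj j' hj' hlt
  obtain ⟨h1, h2, h3, h4, h5⟩ := hABC j hj
  obtain ⟨k1, k2, k3, k4, k5⟩ := hABC j' hj'
  obtain ⟨e1, e2⟩ := Rel_id _ _ _ _ _ _ _ _ _ _ _ _ (hf v hvU) h1 k1 hR
  have e3 : ((C j : ℤ) : ZMod l) * ((B j' : ℤ) : ZMod l) = ((C j' : ℤ) : ZMod l) * ((B j : ℤ) : ZMod l) := by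
    have h6 : ((C j : ℤ) : ZMod l) / ((B j : ℤ) : ZMod l) = ((C j' : ℤ) : ZMod l) / ((B j' : ℤ) : ZMod l) := heq
    rwa [div_eq_div_iff (hBz j hj) (hBz j' hj')] at h6
  have e4 : ((γ * A j * A j' * B j : ℤ) : ZMod l) = 0 := by
    have e5 := congrArg (fun z : ℤ => (z : ZMod l)) e1
    have e6 := congrArg (fun z : ℤ => (z : ZMod l)) e2
    push_cast at e5 e6 e3 ⊢
    have e7 : (γ : ZMod l) * A j * A j' * B j = ((α : ZMod l) * A j * C j' - β * A j' * C j) * B j := by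
      rw [e6]
    rw [e7]
    linear_combination (-(α : ZMod l) * A j) * e3 + (C j : ZMod l) * e5
  rw [hz] at e4
  have hp : Prime (l : ℤ) := Nat.prime_iff_prime_int.1 hl
  rcases hp.dvd_or_dvd e4 with h6 | h6
  · rcases hp.dvd_or_dvd h6 with h7 | h7
    · rcases hp.dvd_or_dvd h7 with h8 | h8
      · exact hγ h8
      · exact h2 h8
    · exact k2 h7
  · exact h3 h6

theorem ncop (l : ℕ) (hl : l.Prime) (y : ℤ) (h : ¬ (l : ℤ) ∣ y) (e : ℕ) : IsCoprime ((l : ℤ) ^ e) y :=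
  (((Nat.prime_iff_prime_int.1 hl).irreducible.coprime_iff_not_dvd).2 h).pow_left

/-- **Local solutions.** -/
theorem local_sol (l : ℕ) (hl : l.Prime) (f : ℕ → ℚ × ℚ) (S : Finset ℕ) (v : ℕ) (hv : v ∈ S) (A B : ℕ → ℕ) (C : ℕ → ℤ)
    (hf : ∀ i ∈ S, 0 < (f i).1)
    (hABC : ∀ j ∈ S, Rel (f v) (f j) (A j) (B j) (C j) ∧ 0 < A j ∧ 0 < B j ∧ Nat.Coprime (A j) (B j))
    (hv1 : A v = 1 ∧ B v = 1)
    (h : ∀ i ∈ S, ∀ j ∈ S, i ≠ j → ∃ (a b : ℕ) (c : ℤ), Ad a b c ∧ Rel (f i) (f j) a b c)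
    (hsm : #S < l ∨ ∀ i ∈ S, ∀ j ∈ S, i ≠ j → Gd l (f i) (f j)) :
    ∃ x : ℤ, ∀ j ∈ S, (l : ℤ) ^ ((A j).factorization l) ∣ B j * x + C j ∧ ¬ (l : ℤ) ^ ((A j).factorization l + 1) ∣ B j * x + C j := by
  classical
  have hfact : Fact l.Prime := ⟨hl⟩
  have hp : Prime (l : ℤ) := Nat.prime_iff_prime_int.1 hl
  -- the form with the smallest slope at `l`
  obtain ⟨u, hu, hmax, hBu⟩ : ∃ u ∈ S, (∀ j ∈ S, (A j).factorization l ≤ (A u).factorization l) ∧ ¬ (l : ℤ) ∣ B u := by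
    obtain ⟨u, hu, hmax⟩ := Finset.exists_max_image S (fun j => (A j).factorization l) ⟨v, hv⟩
    by_cases h0 : (A u).factorization l = 0
    · refine ⟨v, hv, fun j hj => ?_, ?_⟩
      · have h1 := hmax j hj
        rw [h0] at h1
        omega
      · rw [hv1.2]
        exact_mod_cast notdvd_one l hl
    · refine ⟨u, hu, hmax, ?_⟩
      have h1 : l ∣ A u := by
        by_contra h2
        exact h0 (Nat.factorization_eq_zero_of_not_dvd h2)
      have h3 : IsCoprime (A u : ℤ) (B u : ℤ) := Nat.isCoprime_iff_coprime.2 (hABC u hu).2.2.2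
      exact cop_dvd l hl _ _ h3 (by exact_mod_cast h1)
  set e := (A u).factorization l with he
  obtain ⟨hRu, hAu, hBu0, hcu⟩ := hABC u hu
  -- relations to the form `u`
  have hdat : ∀ j, ∃ (α β : ℕ) (γ : ℤ), j ∈ S → Rel (f u) (f j) α β γ ∧ IsCoprime (α : ℤ) (β : ℤ) ∧ ((l : ℤ) ∣ β → ¬ (l : ℤ) ∣ γ) ∧
      (#S < l ∨ (l : ℤ) ∣ α ∨ (l : ℤ) ∣ β ∨ (l : ℤ) ∣ γ) := by
    intro j
    by_cases hj : j ∈ S
    · rcases eq_or_ne u j with h1 | h1
      · refine ⟨1, 1, 0, fun _ => ⟨by rw [h1]; exact Rel_self _, ?_, ?_, ?_⟩⟩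
        · rw [Nat.cast_one]
          exact isCoprime_one_left
        · intro h2
          exact absurd (by exact_mod_cast h2) (notdvd_one l hl)
        · exact Or.inr (Or.inr (Or.inr (dvd_zero _)))
      · obtain ⟨α, β, γ, hA, hR⟩ := h u hu j hj h1
        refine ⟨α, β, γ, fun _ => ⟨hR, Nat.isCoprime_iff_coprime.2 hA.2.2.2.1, fun h2 => cop_dvd l hl _ _ hA.2.2.2.2.2.1 h2, ?_⟩⟩
        rcases hsm with h2 | h2
        · exact Or.inl h2
        · exact Or.inr (h2 u hu j hj h1 α β γ hA hR)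
    · exact ⟨0, 0, 0, fun h0 => absurd h0 hj⟩
  choose α β γ hαβγ using hdat
  -- `l` does not divide `α`
  have hα : ∀ j ∈ S, ¬ (l : ℤ) ∣ α j := by
    intro j hj h1
    obtain ⟨hR, hcop, -, -⟩ := hαβγ j hj
    obtain ⟨e1, -⟩ := Rel_id _ _ _ _ _ _ _ _ _ _ _ _ (hf v hv) hRu (hABC j hj).1 hR
    have h2 : ¬ (l : ℤ) ∣ β j := cop_dvd l hl _ _ hcop h1
    have h3 : (l : ℤ) ^ (e + 1) ∣ (α j : ℤ) * A u * B j := by
      rw [pow_succ, mul_comm ((l : ℤ) ^ e)]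
      refine Dvd.dvd.mul_right (mul_dvd_mul h1 ?_) _
      have h4 : l ^ e ∣ A u := Nat.ordProj_dvd (A u) l
      exact_mod_cast h4
    rw [e1] at h3
    have h5 : (l : ℤ) ^ (e + 1) ∣ (β j : ℤ) * A j := (ncop l hl _ hBu _).dvd_of_dvd_mul_right h3
    have h6 : (l : ℤ) ^ (e + 1) ∣ (A j : ℤ) := (ncop l hl _ h2 _).dvd_of_dvd_mul_left h5
    have h7 : l ^ (e + 1) ∣ A j := by exact_mod_cast h6
    have h8 := (hl.pow_dvd_iff_le_factorization (hABC j hj).2.1.ne').1 h7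
    have h9 := hmax j hj
    omega
  have hz : ∀ z : ℤ, ((z : ℤ) : ZMod l) = 0 ↔ (l : ℤ) ∣ z := fun z => CharP.intCast_eq_zero_iff (ZMod l) l z
  -- the value of the form `u`
  obtain ⟨w, hw⟩ : ∃ w : ℤ, ∀ j ∈ S, ¬ (l : ℤ) ∣ β j * w + γ j := by
    by_cases hS : #S < l
    · have h1 : (S.image (fun j => -((γ j : ℤ) : ZMod l) / ((β j : ℤ) : ZMod l))).card < Fintype.card (ZMod l) := by
        refine Finset.card_image_le.trans_lt ?_
        rw [ZMod.card]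
        exact hS
      obtain ⟨x, hx⟩ : ∃ x, x ∉ S.image (fun j => -((γ j : ℤ) : ZMod l) / ((β j : ℤ) : ZMod l)) := by
        by_contra hcon
        push Not at hcon
        have h2 : S.image (fun j => -((γ j : ℤ) : ZMod l) / ((β j : ℤ) : ZMod l)) = Finset.univ :=
          Finset.eq_univ_iff_forall.2 hcon
        rw [h2, Finset.card_univ] at h1
        exact lt_irrefl _ h1
      refine ⟨(x.val : ℤ), fun j hj h0 => ?_⟩
      by_cases hb : (l : ℤ) ∣ β j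
      · exact (hαβγ j hj).2.2.1 hb ((dvd_add_right (hb.mul_right _)).1 h0)
      · apply hx
        refine Finset.mem_image.2 ⟨j, hj, ?_⟩
        have hb' : ((β j : ℤ) : ZMod l) ≠ 0 := fun h2 => hb ((hz _).1 h2)
        rw [← hz] at h0
        push_cast at h0 hb' ⊢
        rw [ZMod.natCast_zmod_val] at h0
        rw [div_eq_iff hb']
        linear_combination -h0
    · refine ⟨1, fun j hj h0 => ?_⟩
      rw [mul_one] at h0
      obtain ⟨-, -, h2, h3⟩ := hαβγ j hj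
      by_cases hb : (l : ℤ) ∣ β j
      · exact h2 hb ((dvd_add_right hb).1 h0)
      · rcases h3 with h4 | h4 | h4 | h4
        · exact hS h4
        · exact hα j hj h4
        · exact hb h4
        · exact hb ((dvd_add_left h4).1 h0)
  -- the solution
  obtain ⟨p, q, hpq⟩ := (ncop l hl _ hBu (e + 1)).symm
  refine ⟨p * (A u * w - C u), fun j hj => ?_⟩
  obtain ⟨x, hx⟩ : ∃ x, x = p * (A u * w - C u) := ⟨_, rfl⟩
  obtain ⟨z, hzz⟩ : ∃ z : ℤ, B u * x + C u = A u * w + (l : ℤ) ^ (e + 1) * z :=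
    ⟨-(q * (A u * w - C u)), by rw [hx]; linear_combination (A u * w - C u) * hpq⟩
  rw [← hx]
  obtain ⟨hR, hcop, hβγ, -⟩ := hαβγ j hj
  obtain ⟨e1, e2⟩ := Rel_id _ _ _ _ _ _ _ _ _ _ _ _ (hf v hv) hRu (hABC j hj).1 hR
  obtain ⟨A', hA'⟩ : ∃ A' : ℕ, A u = l ^ e * A' := ⟨_, (Nat.ordProj_mul_ordCompl_eq_self (A u) l).symm⟩
  have hA'l : ¬ (l : ℤ) ∣ A' := by
    intro h1
    have h2 : l ^ (e + 1) ∣ A u := by
      rw [hA', pow_succ]
      exact mul_dvd_mul_left _ (by exact_mod_cast h1)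
    have h3 := (hl.pow_dvd_iff_le_factorization hAu.ne').1 h2
    omega
  obtain ⟨g, hg⟩ : ∃ g, g = (A j).factorization l := ⟨_, rfl⟩
  obtain ⟨D, hD⟩ : ∃ D : ℕ, A j = l ^ g * D := ⟨_, by rw [hg]; exact (Nat.ordProj_mul_ordCompl_eq_self (A j) l).symm⟩
  have hDl : ¬ (l : ℤ) ∣ D := by
    intro h1
    have h2 : l ^ (g + 1) ∣ A j := by
      rw [hD, pow_succ]
      exact mul_dvd_mul_left _ (by exact_mod_cast h1)
    have h3 := (hl.pow_dvd_iff_le_factorization (hABC j hj).2.1.ne').1 h2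
    omega
  rw [← hg]
  have hl0 : (l : ℤ) ^ e ≠ 0 := pow_ne_zero _ hp.ne_zero
  have key : (α j : ℤ) * A' * (B j * x + C j) = (l : ℤ) ^ g * (D * (A' * (β j * w + γ j) + (l : ℤ) * (β j * z))) := by
    have h1 : (l : ℤ) ^ e * ((α j : ℤ) * A' * (B j * x + C j)) =
        (l : ℤ) ^ e * ((l : ℤ) ^ g * (D * (A' * (β j * w + γ j) + (l : ℤ) * (β j * z)))) := by
      have h2 : ((A u : ℕ) : ℤ) = (l : ℤ) ^ e * A' := by rw [hA']; push_cast; rfl
      have h3 : ((A j : ℕ) : ℤ) = (l : ℤ) ^ g * D := by rw [hD]; push_cast; rfl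
      have h4 : (α j : ℤ) * A u * (B j * x + C j) = A j * (A u * (β j * w + γ j) + β j * ((l : ℤ) ^ (e + 1) * z)) := by
        linear_combination x * e1 + e2 + (β j * A j) * hzz
      rw [h3, h2] at h4
      rw [pow_succ] at h4
      linear_combination h4
    exact mul_left_cancel₀ hl0 h1
  have hαA : ¬ (l : ℤ) ∣ (α j : ℤ) * A' := fun h1 => (hp.dvd_or_dvd h1).elim (hα j hj) hA'l
  have hR' : ¬ (l : ℤ) ∣ D * (A' * (β j * w + γ j) + (l : ℤ) * (β j * z)) := by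
    intro h1
    rcases hp.dvd_or_dvd h1 with h2 | h2
    · exact hDl h2
    · have h3 := (dvd_add_left (Dvd.intro _ rfl : (l : ℤ) ∣ (l : ℤ) * (β j * z))).1 h2
      rcases hp.dvd_or_dvd h3 with h4 | h4
      · exact hA'l h4
      · exact hw j hj h4
  constructor
  · have h1 : (l : ℤ) ^ g ∣ (α j : ℤ) * A' * (B j * x + C j) := by
      rw [key]
      exact Dvd.intro _ rfl
    exact (ncop l hl _ hαA _).dvd_of_dvd_mul_left h1
  · intro h1
    have h2 : (l : ℤ) ^ (g + 1) ∣ (l : ℤ) ^ g * (D * (A' * (β j * w + γ j) + (l : ℤ) * (β j * z))) := by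
      rw [← key]
      exact h1.mul_left _
    rw [pow_succ] at h2
    exact hR' ((mul_dvd_mul_iff_left (pow_ne_zero _ hp.ne_zero)).1 h2)

end Pool.Agent.helper4.UX
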