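import Pool.Agent.helper4.UX.GenMT

/-!
# Universal exponents (MP_bf63dc_nt): several cliques at once
-/

set_option autoImplicit false

namespace Pool.Agent.helper4.UX

open Finset Pool.Agent.IT

theorem GENL (s : ℕ) : ∀ L : ℕ, ∃ K : ℕ, ∀ (F : Fin L → ℕ → ℚ × ℚ) (T : Finset ℕ), K ≤ #T → (∀ l, ∀ i ∈ T, 0 < (F l i).1) →
    (∀ l, ∀ i ∈ T, ∀ j ∈ T, i < j → ∃ (a b : ℕ) (c : ℤ), Ad a b c ∧ Rel (F l i) (F l j) a b c) →
    ∃ S ⊆ T, #S = s ∧ ∀ l, PC (F l) S := by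
  intro L
  induction L with
  | zero =>
    refine ⟨s, fun F T hT _ _ => ?_⟩
    obtain ⟨S, hS, hSc⟩ := Finset.exists_subset_card_eq hT
    exact ⟨S, hS, hSc, fun l => l.elim0⟩
  | succ L ih =>
    obtain ⟨K, hK⟩ := ih
    obtain ⟨R, hR⟩ := GENS K
    refine ⟨R, fun F T hT hF h => ?_⟩
    obtain ⟨U, hU, hUc, hUC⟩ := hR (F (Fin.last L)) T hT (hF _) (h _)
    obtain ⟨S, hS, hSc, hSC⟩ := hK (fun l => F l.castSucc) U hUc.ge (fun l i hi => hF l.castSucc i (hU hi))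
      (fun l i hi j hj hij => h l.castSucc i (hU hi) j (hU hj) hij)
    refine ⟨S, hS.trans hU, hSc, fun l => ?_⟩
    refine Fin.lastCases ?_ (fun j => ?_) l
    · exact PC_mono _ _ _ hS hUC
    · exact hSC j

end Pool.Agent.helper4.UX
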