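import Pool.Agent.helper4.UX.Glob
import Pool.Agent.helper4.UX.Build

/-!
# Universal exponents (MP_bf63dc_nt): simultaneous primes in every large set of forms, pairwise related by cases of Q1
-/

set_option autoImplicit false

namespace Pool.Agent.helper4.UX

open Finset Pool.Agent.IT

/-- the forms `f i`, `i ∈ S`, are prime simultaneously for infinitely many rational `y`, and pairwise related by true cases -/
def PC (f : ℕ → ℚ × ℚ) (S : Finset ℕ) : Prop :=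
  (∀ N : ℕ, ∃ y : ℚ, ∀ i ∈ S, ∃ p : ℕ, p.Prime ∧ N ≤ p ∧ (f i).1 * y + (f i).2 = p) ∧
  ∀ i ∈ S, ∀ j ∈ S, i < j → ∃ (a b : ℕ) (c : ℤ), Pool.Agent.helper85.FC.TrueCase a b c ∧ Rel (f i) (f j) a b c

theorem PC_mono (f : ℕ → ℚ × ℚ) (S T : Finset ℕ) (h : S ⊆ T) (hT : PC f T) : PC f S := by
  refine ⟨fun N => ?_, fun x hx y hy hxy => hT.2 x (h hx) y (h hy) hxy⟩
  obtain ⟨p, hp⟩ := hT.1 N
  exact ⟨p, fun x hx => hp x (h hx)⟩

/-- simultaneous primes and a case of Q1 between the forms: a true case -/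
theorem true_of (f g : ℚ × ℚ) (a b : ℕ) (c : ℤ) (hA : Ad a b c) (hR : Rel f g a b c)
    (h : ∀ N : ℕ, ∃ y : ℚ, (∃ p : ℕ, p.Prime ∧ N ≤ p ∧ f.1 * y + f.2 = p) ∧ ∃ p : ℕ, p.Prime ∧ N ≤ p ∧ g.1 * y + g.2 = p) :
    Pool.Agent.helper85.FC.TrueCase a b c := by
  obtain ⟨h1, h2, h3, h4, h5, h6, h7⟩ := hA
  refine ⟨h1, h2, h3, h4, h5, h6, h7, ?_⟩
  rw [← Set.not_finite]
  intro hfin
  obtain ⟨M, hM⟩ := hfin.bddAbove
  obtain ⟨y, ⟨p, hp, hNp, hpy⟩, ⟨q, hq, hNq, hqy⟩⟩ := h (M.1 + 1)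
  have h8 := hM (show (q, p) ∈ {pq : ℕ × ℕ | pq.1.Prime ∧ pq.2.Prime ∧ (a : ℤ) * pq.1 - b * pq.2 = c} from by
    refine ⟨hq, hp, ?_⟩
    have h9 : ((a : ℚ)) * q - b * p = c := by
      rw [← hpy, ← hqy]
      linear_combination y * hR.1 + hR.2
    dsimp only
    exact_mod_cast h9)
  have h10 : q ≤ M.1 := h8.1
  omega

/-- simultaneous primes from admissible forms -/
theorem gcore (s k : ℕ) (hk : 1 ≤ k) (hMT : ∀ (A : Fin k → ℕ) (B : Fin k → ℤ), (∀ i, 0 < A i) →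
    (∀ i j, i ≠ j → (A i : ℤ) * B j ≠ A j * B i) →
    (∀ p : ℕ, p.Prime → ∃ n : ℕ, ∀ i, ¬ (p : ℤ) ∣ A i * n + B i) →
    ∀ N : ℕ, ∃ n ≥ N, s < #{i : Fin k | ((A i : ℤ) * n + B i).toNat.Prime})
    (f : ℕ → ℚ × ℚ) (S : Finset ℕ) (hSk : #S = k)
    (hf : ∀ i ∈ S, 0 < (f i).1)
    (h : ∀ i ∈ S, ∀ j ∈ S, i ≠ j → ∃ (a b : ℕ) (c : ℤ), Ad a b c ∧ Rel (f i) (f j) a b c)
    (hsm : ∀ l : ℕ, l.Prime → l ≤ k → ∀ i ∈ S, ∀ j ∈ S, i ≠ j → Gd l (f i) (f j)) :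
    ∃ I ⊆ S, #I = s ∧ PC f I := by
  classical
  obtain ⟨σ, D, y, hσ, hy, hadm⟩ := global_sol k f S hSk hk hf h hsm
  set e := S.orderEmbOfFin hSk with he
  have hem : ∀ i, e i ∈ S := fun i => Finset.orderEmbOfFin_mem S hSk i
  have hnp : ∀ i ∈ S, ∀ j ∈ S, i ≠ j → (σ i : ℤ) * D j ≠ σ j * D i := by
    intro i hi j hj hij h0
    obtain ⟨a, b, c, hA, hR⟩ := h i hi j hj hij
    have e0 := hy i hi 0
    have e1 := hy i hi 1
    have k0 := hy j hj 0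
    have k1 := hy j hj 1
    rw [Nat.cast_zero, mul_zero, zero_add] at e0 k0
    rw [Nat.cast_one, mul_one] at e1 k1
    have h1 : (a : ℚ) * D j - b * D i = c := by
      rw [← e0, ← k0]
      linear_combination (y 0) * hR.1 + hR.2
    have h2 : (a : ℚ) * (σ j + D j) - b * (σ i + D i) = c := by
      rw [← e1, ← k1]
      linear_combination (y 1) * hR.1 + hR.2
    have h3 : (a : ℚ) * σ j = b * σ i := by linear_combination h2 - h1
    have h4 : (σ i : ℚ) * D j = σ j * D i := by exact_mod_cast h0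
    have hσi : (σ i : ℚ) ≠ 0 := by exact_mod_cast (hσ i hi).ne'
    have h5 : (σ i : ℚ) * c = 0 := by
      rw [← h1]
      linear_combination (a : ℚ) * h4 + (D i : ℚ) * h3
    have h6 : (c : ℚ) = 0 := (mul_eq_zero.1 h5).resolve_left hσi
    exact hA.2.2.1 (by exact_mod_cast h6)
  have hM := hMT (fun i => σ (e i)) (fun i => D (e i)) (fun i => hσ _ (hem i))
    (fun i j hij => hnp _ (hem i) _ (hem j) (fun h0 => hij (e.injective h0)))
    (fun p hp => by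
      obtain ⟨n, hn⟩ := hadm p hp
      exact ⟨n, fun i => hn _ (hem i)⟩)
  have hclique : ∃ I : Finset (Fin k), s < #I ∧ ∀ N : ℕ, ∃ n ≥ N, ∀ i ∈ I, (((σ (e i) : ℕ) : ℤ) * n + D (e i)).toNat.Prime := by
    by_contra hcon
    push Not at hcon
    have hc2 : ∀ I : Finset (Fin k), ∃ N : ℕ, s < #I → ∀ n ≥ N, ∃ i ∈ I, ¬ (((σ (e i) : ℕ) : ℤ) * n + D (e i)).toNat.Prime := by
      intro I
      by_cases hx : s < #I
      · obtain ⟨N, hN⟩ := hcon I hx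
        exact ⟨N, fun _ => hN⟩
      · exact ⟨0, fun h1 => absurd h1 hx⟩
    choose N hN using hc2
    obtain ⟨n, hn, hcard⟩ := hM (∑ I : Finset (Fin k), N I)
    obtain ⟨i, hi, h1⟩ := hN _ hcard n ((Finset.single_le_sum (f := N) (fun _ _ => Nat.zero_le _) (Finset.mem_univ _)).trans hn)
    rw [Finset.mem_filter] at hi
    exact h1 hi.2
  obtain ⟨I₀, hI₀, hinf₀⟩ := hclique
  obtain ⟨I, hII, hIc⟩ := Finset.exists_subset_card_eq hI₀.le
  have hprime : ∀ N : ℕ, ∃ y : ℚ, ∀ i ∈ I.image e, ∃ p : ℕ, p.Prime ∧ N ≤ p ∧ (f i).1 * y + (f i).2 = p := by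
    intro N
    obtain ⟨n, hn, hp⟩ := hinf₀ (N + ∑ i, (D (e i)).natAbs)
    refine ⟨y n, fun x hx => ?_⟩
    obtain ⟨i, hi, rfl⟩ := Finset.mem_image.1 hx
    have h1 := hp i (hII hi)
    have h2 : (D (e i)).natAbs ≤ ∑ i, (D (e i)).natAbs :=
      Finset.single_le_sum (f := fun i => (D (e i)).natAbs) (fun _ _ => Nat.zero_le _) (Finset.mem_univ i)
    have h3 : (n : ℤ) ≤ ((σ (e i) : ℕ) : ℤ) * n := by
      have h4 : (1 : ℤ) ≤ ((σ (e i) : ℕ) : ℤ) := by exact_mod_cast hσ _ (hem i)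
      have h5 : (0 : ℤ) ≤ n := Int.natCast_nonneg n
      nlinarith
    have h6 : (0 : ℤ) ≤ ((σ (e i) : ℕ) : ℤ) * n + D (e i) := by omega
    refine ⟨_, h1, by omega, ?_⟩
    rw [hy _ (hem i) n]
    have h7 : ((((((σ (e i) : ℕ) : ℤ) * n + D (e i)).toNat : ℕ) : ℤ)) = ((σ (e i) : ℕ) : ℤ) * n + D (e i) := Int.toNat_of_nonneg h6
    have h8 : ((((((σ (e i) : ℕ) : ℤ) * n + D (e i)).toNat : ℕ) : ℤ) : ℚ) = (((((σ (e i) : ℕ) : ℤ) * n + D (e i) : ℤ)) : ℚ) := by rw [h7]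
    push_cast at h8
    exact h8.symm
  refine ⟨I.image e, ?_, ?_, hprime, ?_⟩
  · intro x hx
    obtain ⟨i, -, rfl⟩ := Finset.mem_image.1 hx
    exact hem i
  · rw [Finset.card_image_of_injective _ e.injective, hIc]
  · intro i hi j hj hij
    have hsub : ∀ x ∈ I.image e, x ∈ S := by
      intro x hx
      obtain ⟨i, -, rfl⟩ := Finset.mem_image.1 hx
      exact hem i
    obtain ⟨a, b, c, hA, hR⟩ := h i (hsub i hi) j (hsub j hj) hij.ne
    refine ⟨a, b, c, true_of _ _ _ _ _ hA hR (fun N => ?_), hR⟩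
    obtain ⟨y, hy⟩ := hprime N
    exact ⟨y, hy i hi, hy j hj⟩

/-- a subset good at finitely many primes -/
theorem good_primes (k : ℕ) : ∀ (L : List ℕ), (∀ l ∈ L, l.Prime ∧ l ≤ k) → ∀ m : ℕ, ∃ K : ℕ, ∀ (f : ℕ → ℚ × ℚ) (T : Finset ℕ), K ≤ #T →
    (∀ i ∈ T, 0 < (f i).1) → ∃ S ⊆ T, #S = m ∧ ∀ l ∈ L, ∀ i ∈ S, ∀ j ∈ S, i < j → Gd l (f i) (f j) := by
  intro L
  induction L with
  | nil =>
    intro _ m
    refine ⟨m, fun f T hT _ => ?_⟩
    obtain ⟨S, hS, hSc⟩ := Finset.exists_subset_card_eq hT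
    exact ⟨S, hS, hSc, fun l hl => absurd hl List.not_mem_nil⟩
  | cons l L ih =>
    intro hL m
    obtain ⟨K, hK⟩ := ih (fun q hq => hL q (List.mem_cons_of_mem _ hq)) m
    obtain ⟨R, hR⟩ := ramsey K (k + 1)
    refine ⟨R, fun f T hT hf => ?_⟩
    rcases hR (fun x y => Gd l (f x) (f y)) T hT with ⟨U, hU, hUc, hUG⟩ | ⟨U, hU, hUc, hUG⟩
    · obtain ⟨S, hS, hSc, hSG⟩ := hK f U hUc.ge (fun i hi => hf i (hU hi))
      refine ⟨S, hS.trans hU, hSc, fun q hq i hi j hj hij => ?_⟩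
      rcases List.mem_cons.1 hq with rfl | hq
      · exact hUG i (hS hi) j (hS hj) hij
      · exact hSG q hq i hi j hj hij
    · obtain ⟨hlp, hlk⟩ := hL l List.mem_cons_self
      obtain ⟨i, hi, j, hj, hij, h1⟩ := pigeon l hlp f U (by omega) (fun i hi => hf i (hU hi))
      exact absurd h1 (hUG i hi j hj hij)

/-- **Pairwise is enough.** Any `K` forms, pairwise related by cases of Q1, contain `s` simultaneously prime ones. -/
theorem GENS (s : ℕ) : ∃ K : ℕ, ∀ (f : ℕ → ℚ × ℚ) (T : Finset ℕ), K ≤ #T → (∀ i ∈ T, 0 < (f i).1) →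
    (∀ i ∈ T, ∀ j ∈ T, i < j → ∃ (a b : ℕ) (c : ℤ), Ad a b c ∧ Rel (f i) (f j) a b c) → ∃ S ⊆ T, #S = s ∧ PC f S := by
  classical
  obtain ⟨k, hk2, hMT⟩ := Pool.Agent.helper39.MT.maynard_tao s
  obtain ⟨K, hK⟩ := good_primes k (((Finset.range (k + 1)).filter Nat.Prime).toList)
    (fun l hl => by
      rw [Finset.mem_toList, Finset.mem_filter, Finset.mem_range] at hl
      exact ⟨hl.2, by omega⟩) k
  refine ⟨K, fun f T hT hf h => ?_⟩
  obtain ⟨S, hS, hSc, hSG⟩ := hK f T hT hf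
  have h' : ∀ i ∈ S, ∀ j ∈ S, i ≠ j → ∃ (a b : ℕ) (c : ℤ), Ad a b c ∧ Rel (f i) (f j) a b c := by
    intro i hi j hj hij
    rcases lt_or_gt_of_ne hij with h1 | h1
    · exact h i (hS hi) j (hS hj) h1
    · obtain ⟨a, b, c, hA, hR⟩ := h j (hS hj) i (hS hi) h1
      exact ⟨b, a, -c, Ad_symm _ _ _ hA, Rel_symm _ _ _ _ _ hR⟩
  obtain ⟨I, hI, hIc, hPC⟩ := gcore s k (by omega) hMT f S hSc (fun i hi => hf i (hS hi)) h' (fun l hl hlk i hi j hj hij => by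
    have hmem : l ∈ ((Finset.range (k + 1)).filter Nat.Prime).toList := by
      rw [Finset.mem_toList, Finset.mem_filter, Finset.mem_range]
      exact ⟨by omega, hl⟩
    rcases lt_or_gt_of_ne hij with h1 | h1
    · exact hSG l hmem i hi j hj h1
    · exact Gd_symm _ _ _ (hSG l hmem j hj i hi h1))
  exact ⟨I, hI.trans hS, hIc, hPC⟩

end Pool.Agent.helper4.UX
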