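import Pool.Agent.helper4.UX.Gen
import Pool.Agent.helper39.MT.Main

/-!
# Universal exponents (MP_bf63dc_nt): pairwise local conditions are enough (global part)
-/

set_option autoImplicit false

namespace Pool.Agent.helper4.UX

open Finset Pool.Agent.IT

/-- the Chinese remainder theorem for integers and prime powers -/
theorem crt (P : Finset ℕ) (hP : ∀ l ∈ P, l.Prime) (x : ℕ → ℤ) (E : ℕ) : ∃ x₀ : ℤ, ∀ l ∈ P, (l : ℤ) ^ (E + 1) ∣ x₀ - x l := by
  classical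
  induction P using Finset.induction_on with
  | empty => exact ⟨0, fun l hl => absurd hl (Finset.notMem_empty l)⟩
  | insert q P hq ih =>
    obtain ⟨y, hy⟩ := ih (fun l hl => hP l (Finset.mem_insert_of_mem hl))
    have hqp : q.Prime := hP q (Finset.mem_insert_self _ _)
    have hcop : IsCoprime ((q : ℤ) ^ (E + 1)) (∏ l ∈ P, (l : ℤ) ^ (E + 1)) := by
      refine IsCoprime.prod_right (fun l hl => ?_)
      refine IsCoprime.pow ?_
      refine Nat.isCoprime_iff_coprime.2 ((Nat.coprime_primes hqp (hP l (Finset.mem_insert_of_mem hl))).2 ?_)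
      intro h0
      exact hq (h0 ▸ hl)
    obtain ⟨u, v, huv⟩ := hcop
    refine ⟨y + (x q - y) * (v * ∏ l ∈ P, (l : ℤ) ^ (E + 1)), fun l hl => ?_⟩
    rcases Finset.mem_insert.1 hl with rfl | hl
    · refine ⟨-(x l - y) * u, ?_⟩
      linear_combination (x l - y) * huv
    · have h1 : (l : ℤ) ^ (E + 1) ∣ ∏ l ∈ P, (l : ℤ) ^ (E + 1) := Finset.dvd_prod_of_mem (fun l : ℕ => (l : ℤ) ^ (E + 1)) hl
      have h2 := hy l hl
      have h3 : y + (x q - y) * (v * ∏ l ∈ P, (l : ℤ) ^ (E + 1)) - x l =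
          (y - x l) + (x q - y) * (v * ∏ l ∈ P, (l : ℤ) ^ (E + 1)) := by ring
      rw [h3]
      exact dvd_add h2 (Dvd.dvd.mul_left (Dvd.dvd.mul_left h1 _) _)

/-- admissible integer forms for pairwise related rational forms -/
theorem global_sol (k : ℕ) (f : ℕ → ℚ × ℚ) (S : Finset ℕ) (hSk : #S = k) (hk : 1 ≤ k)
    (hf : ∀ i ∈ S, 0 < (f i).1)
    (h : ∀ i ∈ S, ∀ j ∈ S, i ≠ j → ∃ (a b : ℕ) (c : ℤ), Ad a b c ∧ Rel (f i) (f j) a b c)
    (hsm : ∀ l : ℕ, l.Prime → l ≤ k → ∀ i ∈ S, ∀ j ∈ S, i ≠ j → Gd l (f i) (f j)) :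
    ∃ (s : ℕ → ℕ) (D : ℕ → ℤ) (y : ℕ → ℚ), (∀ j ∈ S, 0 < s j) ∧
      (∀ j ∈ S, ∀ n : ℕ, (f j).1 * y n + (f j).2 = (s j : ℚ) * n + D j) ∧
      ∀ p : ℕ, p.Prime → ∃ n : ℕ, ∀ j ∈ S, ¬ (p : ℤ) ∣ s j * n + D j := by
  classical
  obtain ⟨v, hv⟩ : S.Nonempty := Finset.card_pos.1 (by omega)
  have hdat : ∀ j, ∃ (a b : ℕ) (c : ℤ), (j ∈ S → Rel (f v) (f j) a b c ∧ 0 < a ∧ 0 < b ∧ Nat.Coprime a b) ∧ (j = v → a = 1 ∧ b = 1) := by
    intro j
    rcases eq_or_ne v j with h1 | h1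
    · exact ⟨1, 1, 0, fun _ => ⟨by rw [h1]; exact Rel_self _, one_pos, one_pos, Nat.coprime_one_right 1⟩, fun _ => ⟨rfl, rfl⟩⟩
    · by_cases hj : j ∈ S
      · obtain ⟨a, b, c, hA, hR⟩ := h v hv j hj h1
        exact ⟨a, b, c, fun _ => ⟨hR, hA.1, hA.2.1, hA.2.2.2.1⟩, fun h0 => absurd h0.symm h1⟩
      · exact ⟨0, 0, 0, fun h0 => absurd h0 hj, fun h0 => absurd h0.symm h1⟩
  choose A B C hABC using hdat
  have hA : ∀ j ∈ S, Rel (f v) (f j) (A j) (B j) (C j) ∧ 0 < A j ∧ 0 < B j ∧ Nat.Coprime (A j) (B j) := fun j hj => (hABC j).1 hj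
  set W : ℕ := k.factorial * ∏ j ∈ S, A j * B j with hW
  have hW0 : W ≠ 0 := by
    rw [hW]
    refine Nat.mul_ne_zero (Nat.factorial_ne_zero k) (Finset.prod_ne_zero_iff.2 (fun j hj => ?_))
    exact Nat.mul_ne_zero (hA j hj).2.1.ne' (hA j hj).2.2.1.ne'
  set P := W.primeFactors with hP
  have hPp : ∀ l ∈ P, l.Prime := fun l hl => Nat.prime_of_mem_primeFactors hl
  have hPk : ∀ l : ℕ, l.Prime → l ≤ k → l ∈ P := fun l hl hlk => by
    rw [hP, Nat.mem_primeFactors]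
    exact ⟨hl, (hl.dvd_factorial.2 hlk).mul_right _, hW0⟩
  have hPA : ∀ l : ℕ, l.Prime → ∀ j ∈ S, l ∣ A j * B j → l ∈ P := fun l hl j hj hd => by
    rw [hP, Nat.mem_primeFactors]
    exact ⟨hl, Dvd.dvd.mul_left (hd.trans (Finset.dvd_prod_of_mem (fun j => A j * B j) hj)) _, hW0⟩
  set E : ℕ := ∑ j ∈ S, A j with hE
  have hEj : ∀ j ∈ S, ∀ l : ℕ, (A j).factorization l ≤ E := fun j hj l =>
    (Nat.factorization_lt l (hA j hj).2.1.ne').le.trans (Finset.single_le_sum (f := A) (fun _ _ => Nat.zero_le _) hj)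
  have hloc : ∀ l : ℕ, ∃ x : ℤ, l.Prime → ∀ j ∈ S, (l : ℤ) ^ ((A j).factorization l) ∣ B j * x + C j ∧
      ¬ (l : ℤ) ^ ((A j).factorization l + 1) ∣ B j * x + C j := by
    intro l
    by_cases hl : l.Prime
    · obtain ⟨x, hx⟩ := local_sol l hl f S v hv A B C hf hA ((hABC v).2 rfl) h (by
        by_cases h1 : l ≤ k
        · exact Or.inr (hsm l hl h1)
        · exact Or.inl (by omega))
      exact ⟨x, fun _ => hx⟩
    · exact ⟨0, fun h0 => absurd h0 hl⟩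
  choose x hx using hloc
  obtain ⟨x₀, hx₀⟩ := crt P hPp x E
  have hval : ∀ l ∈ P, ∀ j ∈ S, (l : ℤ) ^ ((A j).factorization l) ∣ B j * x₀ + C j ∧
      ¬ (l : ℤ) ^ ((A j).factorization l + 1) ∣ B j * x₀ + C j := by
    intro l hl j hj
    obtain ⟨h1, h2⟩ := hx l (hPp l hl) j hj
    have h3 : (l : ℤ) ^ (E + 1) ∣ B j * (x₀ - x l) := (hx₀ l hl).mul_left _
    have h4 : (B j : ℤ) * x₀ + C j = (B j * x l + C j) + B j * (x₀ - x l) := by ring
    have h5 : (l : ℤ) ^ ((A j).factorization l) ∣ (l : ℤ) ^ (E + 1) := pow_dvd_pow _ (by have := hEj j hj l; omega)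
    have h6 : (l : ℤ) ^ ((A j).factorization l + 1) ∣ (l : ℤ) ^ (E + 1) := pow_dvd_pow _ (by have := hEj j hj l; omega)
    rw [h4]
    refine ⟨dvd_add h1 (h5.trans h3), fun h7 => h2 ((dvd_add_left (h6.trans h3)).1 h7)⟩
  set Q : ℕ := ∏ l ∈ P, l ^ (E + 1) with hQ
  have hQ0 : 0 < Q := Finset.prod_pos (fun l hl => pow_pos (hPp l hl).pos _)
  have hAdvd : ∀ j ∈ S, (A j : ℤ) ∣ B j * x₀ + C j := by
    intro j hj
    rw [Int.natCast_dvd]
    rw [Nat.dvd_iff_prime_pow_dvd_dvd]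
    intro p t hp hpt
    rcases Nat.eq_zero_or_pos t with rfl | ht
    · rw [pow_zero]
      exact one_dvd _
    · have h1 : p ∣ A j := (dvd_pow_self p ht.ne').trans hpt
      have h2 : p ∈ P := hPA p hp j hj (h1.mul_right _)
      have h3 := (hp.pow_dvd_iff_le_factorization (hA j hj).2.1.ne').1 hpt
      have h4 := (hval p h2 j hj).1
      have h5 : ((p ^ t : ℕ) : ℤ) ∣ B j * x₀ + C j := by
        push_cast
        exact (pow_dvd_pow _ h3).trans h4
      exact Int.natCast_dvd.1 h5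
  have hAQ : ∀ j ∈ S, A j ∣ Q := by
    intro j hj
    rw [Nat.dvd_iff_prime_pow_dvd_dvd]
    intro p t hp hpt
    rcases Nat.eq_zero_or_pos t with rfl | ht
    · rw [pow_zero]
      exact one_dvd _
    · have h1 : p ∣ A j := (dvd_pow_self p ht.ne').trans hpt
      have h2 : p ∈ P := hPA p hp j hj (h1.mul_right _)
      have h3 := (hp.pow_dvd_iff_le_factorization (hA j hj).2.1.ne').1 hpt
      have h4 : p ^ (E + 1) ∣ Q := Finset.dvd_prod_of_mem (fun l => l ^ (E + 1)) h2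
      exact (pow_dvd_pow _ (by have := hEj j hj p; omega)).trans h4
  have hQA : ∀ j ∈ S, A j * (Q / A j) = Q := fun j hj => Nat.mul_div_cancel' (hAQ j hj)
  have hDA : ∀ j ∈ S, (A j : ℤ) * ((B j * x₀ + C j) / A j) = B j * x₀ + C j := fun j hj => Int.mul_ediv_cancel' (hAdvd j hj)
  refine ⟨fun j => B j * (Q / A j), fun j => (B j * x₀ + C j) / A j, fun n => ((x₀ : ℚ) + Q * n - (f v).2) / (f v).1, ?_, ?_, ?_⟩
  · intro j hj
    exact Nat.mul_pos (hA j hj).2.2.1 (Nat.div_pos (Nat.le_of_dvd hQ0 (hAQ j hj)) (hA j hj).2.1)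
  · intro j hj n
    obtain ⟨⟨h1, h2⟩, hA0, -, -⟩ := hA j hj
    have hA0' : ((A j : ℕ) : ℚ) ≠ 0 := by exact_mod_cast hA0.ne'
    refine mul_left_cancel₀ hA0' ?_
    have hfv : (f v).1 ≠ 0 := (hf v hv).ne'
    have h3 : (f v).1 * (((x₀ : ℚ) + Q * n - (f v).2) / (f v).1) = (x₀ : ℚ) + Q * n - (f v).2 := mul_div_cancel₀ _ hfv
    have h4 : ((A j : ℕ) : ℚ) * ((Q / A j : ℕ) : ℚ) = Q := by exact_mod_cast hQA j hj
    have h5 : ((A j : ℕ) : ℚ) * (((B j * x₀ + C j) / A j : ℤ) : ℚ) = B j * x₀ + C j := by exact_mod_cast hDA j hj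
    obtain ⟨y, hy⟩ : ∃ y, y = ((x₀ : ℚ) + Q * n - (f v).2) / (f v).1 := ⟨_, rfl⟩
    simp only
    rw [← hy] at h3 ⊢
    push_cast at h4 h5 ⊢
    linear_combination y * h1 + h2 + (B j : ℚ) * h3 - (B j : ℚ) * n * h4 - h5
  · intro p hp
    have : Fact p.Prime := ⟨hp⟩
    by_cases hpP : p ∈ P
    · refine ⟨0, fun j hj h0 => ?_⟩
      obtain ⟨h1, h2⟩ := hval p hpP j hj
      apply h2
      have h3 : (p : ℤ) ∣ (B j * x₀ + C j) / A j := by
        have h4 : (((B j * (Q / A j) : ℕ) : ℤ)) * ((0 : ℕ) : ℤ) + (B j * x₀ + C j) / A j = (B j * x₀ + C j) / A j := by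
          rw [Nat.cast_zero, mul_zero, zero_add]
        rwa [h4] at h0
      rw [← hDA j hj, pow_succ]
      refine mul_dvd_mul ?_ h3
      have h4 : p ^ (A j).factorization p ∣ A j := Nat.ordProj_dvd (A j) p
      exact_mod_cast h4
    · have hpk : k < p := by
        by_contra h1
        exact hpP (hPk p hp (by omega))
      have hs : ∀ j ∈ S, ¬ (p : ℤ) ∣ ((B j * (Q / A j) : ℕ) : ℤ) := by
        intro j hj h1
        have h2 : p ∣ B j * (Q / A j) := by exact_mod_cast h1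
        rcases (hp.dvd_mul).1 h2 with h3 | h3
        · exact hpP (hPA p hp j hj (h3.mul_left _))
        · have h4 : p ∣ Q := h3.trans (Dvd.intro_left _ (hQA j hj))
          rw [hQ, hp.prime.dvd_finsetProd_iff] at h4
          obtain ⟨l, hl, h5⟩ := h4
          have h6 : p = l := (Nat.prime_dvd_prime_iff_eq hp (hPp l hl)).1 (hp.dvd_of_dvd_pow h5)
          exact hpP (h6 ▸ hl)
      have hz : ∀ z : ℤ, ((z : ℤ) : ZMod p) = 0 ↔ (p : ℤ) ∣ z := fun z => CharP.intCast_eq_zero_iff (ZMod p) p z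
      have h1 : (S.image (fun j => -(((B j * x₀ + C j) / A j : ℤ) : ZMod p) / (((B j * (Q / A j) : ℕ) : ℤ) : ZMod p))).card <
          Fintype.card (ZMod p) := by
        refine Finset.card_image_le.trans_lt ?_
        rw [ZMod.card]
        omega
      obtain ⟨r, hr⟩ : ∃ r, r ∉ S.image (fun j => -(((B j * x₀ + C j) / A j : ℤ) : ZMod p) / (((B j * (Q / A j) : ℕ) : ℤ) : ZMod p)) := by
        by_contra hcon
        push Not at hcon
        rw [Finset.eq_univ_iff_forall.2 hcon, Finset.card_univ] at h1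
        exact lt_irrefl _ h1
      refine ⟨r.val, fun j hj h0 => ?_⟩
      apply hr
      refine Finset.mem_image.2 ⟨j, hj, ?_⟩
      have hb : ((((B j * (Q / A j) : ℕ) : ℤ)) : ZMod p) ≠ 0 := fun h2 => hs j hj ((hz _).1 h2)
      rw [← hz] at h0
      have h0' : ((((B j * (Q / A j) : ℕ) : ℤ)) : ZMod p) * r + (((B j * x₀ + C j) / A j : ℤ) : ZMod p) = 0 := by
        rw [Int.cast_add, Int.cast_mul, Int.cast_natCast (r.val), ZMod.natCast_zmod_val] at h0
        exact h0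
      rw [div_eq_iff hb]
      linear_combination -h0'

end Pool.Agent.helper4.UX
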