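import Pool.Agent.helper71.AT.MM

/-!
# Cliques of cases (MP_bf63dc_nt): the inequality of Moon and Moser for 5-cliques
-/

set_option autoImplicit false

namespace Pool.Agent.helper4.UX

open Finset Pool.Agent.AT

theorem alg5 (n N2 N3 N4 N5 : ℝ) (hn : 0 < n) (hN5 : 0 ≤ N5)
    (h1 : 2 * N2 ^ 2 - n ^ 2 * N2 ≤ n * N3) (h2 : 3 * N3 ^ 2 ≤ N2 * (n * N3 + 2 * N4))
    (h3 : 4 * N4 ^ 2 ≤ N3 * (n * N4 + 3 * N5)) : n ^ 3 * N2 ≤ 3 / 4 * n ^ 5 + 8 / 3 * N5 := by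
  by_cases hc : N2 ≤ 3 / 4 * n ^ 2
  · have h4 : n ^ 3 * N2 ≤ n ^ 3 * (3 / 4 * n ^ 2) := mul_le_mul_of_nonneg_left hc (by positivity)
    nlinarith
  · have hc' : 3 / 4 * n ^ 2 < N2 := lt_of_not_ge hc
    have hn2 : 0 < n ^ 2 := by positivity
    have hN2 : 0 < N2 := by linarith
    have hP : n ^ 2 / 2 ≤ 2 * N2 - n ^ 2 := by linarith
    have hQ : n ^ 2 / 4 ≤ 3 * N2 - 2 * n ^ 2 := by linarith
    have hR : 0 ≤ 4 * N2 - 3 * n ^ 2 := by linarith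
    have hA : N2 * (2 * N2 - n ^ 2) ≤ n * N3 := by nlinarith
    have hN3 : 0 < N3 := by
      have h4 : 0 < N2 * (2 * N2 - n ^ 2) := mul_pos hN2 (by linarith)
      have h5 : 0 < n * N3 := by linarith
      exact pos_of_mul_pos_right h5 hn.le
    -- `n N4 ≥ N3 (3 N2 - 2 n^2)`
    have hB : N3 * (3 * N2 - 2 * n ^ 2) ≤ n * N4 := by
      have h4 : N3 * (3 * N3 - n * N2) ≤ 2 * N2 * N4 := by nlinarith
      have h5 : 2 * N2 * (3 * N2 - 2 * n ^ 2) ≤ n * (3 * N3 - n * N2) := by nlinarith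
      have h6 : N3 * (2 * N2 * (3 * N2 - 2 * n ^ 2)) ≤ N3 * (n * (3 * N3 - n * N2)) :=
        mul_le_mul_of_nonneg_left h5 hN3.le
      have h7 : n * (N3 * (3 * N3 - n * N2)) ≤ n * (2 * N2 * N4) := mul_le_mul_of_nonneg_left h4 hn.le
      have h8 : (2 * N2) * (N3 * (3 * N2 - 2 * n ^ 2)) ≤ (2 * N2) * (n * N4) := by
        calc (2 * N2) * (N3 * (3 * N2 - 2 * n ^ 2)) = N3 * (2 * N2 * (3 * N2 - 2 * n ^ 2)) := by ring
          _ ≤ N3 * (n * (3 * N3 - n * N2)) := h6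
          _ = n * (N3 * (3 * N3 - n * N2)) := by ring
          _ ≤ n * (2 * N2 * N4) := h7
          _ = (2 * N2) * (n * N4) := by ring
      exact le_of_mul_le_mul_left h8 (by linarith)
    -- `n N5 ≥ N4 (4 N2 - 3 n^2)`
    have hN4 : 0 < N4 := by
      have h4 : 0 < N3 * (3 * N2 - 2 * n ^ 2) := mul_pos hN3 (by linarith)
      have h5 : 0 < n * N4 := by linarith
      exact pos_of_mul_pos_right h5 hn.le
    have hC : N4 * (4 * N2 - 3 * n ^ 2) ≤ n * N5 := by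
      have h4 : N4 * (4 * N4 - n * N3) ≤ 3 * N3 * N5 := by nlinarith
      have h5 : 3 * N3 * (4 * N2 - 3 * n ^ 2) ≤ n * (4 * N4 - n * N3) := by nlinarith
      have h6 : N4 * (3 * N3 * (4 * N2 - 3 * n ^ 2)) ≤ N4 * (n * (4 * N4 - n * N3)) :=
        mul_le_mul_of_nonneg_left h5 hN4.le
      have h7 : n * (N4 * (4 * N4 - n * N3)) ≤ n * (3 * N3 * N5) := mul_le_mul_of_nonneg_left h4 hn.le
      have h8 : (3 * N3) * (N4 * (4 * N2 - 3 * n ^ 2)) ≤ (3 * N3) * (n * N5) := by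
        calc (3 * N3) * (N4 * (4 * N2 - 3 * n ^ 2)) = N4 * (3 * N3 * (4 * N2 - 3 * n ^ 2)) := by ring
          _ ≤ N4 * (n * (4 * N4 - n * N3)) := h6
          _ = n * (N4 * (4 * N4 - n * N3)) := by ring
          _ ≤ n * (3 * N3 * N5) := h7
          _ = (3 * N3) * (n * N5) := by ring
      exact le_of_mul_le_mul_left h8 (by linarith)
    have hD : (3 / 4 * n ^ 2) * (n ^ 2 / 2) ≤ n * N3 := by
      refine le_trans ?_ hA
      exact mul_le_mul hc'.le hP (by positivity) hN2.le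
    have hE : (3 / 4 * n ^ 2) * (n ^ 2 / 2) * (n ^ 2 / 4) ≤ n ^ 2 * N4 := by
      calc (3 / 4 * n ^ 2) * (n ^ 2 / 2) * (n ^ 2 / 4) ≤ n * N3 * (3 * N2 - 2 * n ^ 2) :=
            mul_le_mul hD hQ (by positivity) (by positivity)
        _ = n * (N3 * (3 * N2 - 2 * n ^ 2)) := by ring
        _ ≤ n * (n * N4) := mul_le_mul_of_nonneg_left hB hn.le
        _ = n ^ 2 * N4 := by ring
    have hF : (3 / 4 * n ^ 2) * (n ^ 2 / 2) * (n ^ 2 / 4) * (4 * N2 - 3 * n ^ 2) ≤ n ^ 3 * N5 := by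
      calc (3 / 4 * n ^ 2) * (n ^ 2 / 2) * (n ^ 2 / 4) * (4 * N2 - 3 * n ^ 2) ≤ n ^ 2 * N4 * (4 * N2 - 3 * n ^ 2) :=
            mul_le_mul_of_nonneg_right hE hR
        _ = n ^ 2 * (N4 * (4 * N2 - 3 * n ^ 2)) := by ring
        _ ≤ n ^ 2 * (n * N5) := mul_le_mul_of_nonneg_left hC (by positivity)
        _ = n ^ 3 * N5 := by ring
    have hG : n ^ 3 * (3 / 32 * n ^ 3 * (4 * N2 - 3 * n ^ 2)) ≤ n ^ 3 * N5 := by
      calc n ^ 3 * (3 / 32 * n ^ 3 * (4 * N2 - 3 * n ^ 2)) =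
            (3 / 4 * n ^ 2) * (n ^ 2 / 2) * (n ^ 2 / 4) * (4 * N2 - 3 * n ^ 2) := by ring
        _ ≤ n ^ 3 * N5 := hF
    have hH := le_of_mul_le_mul_left hG (by positivity)
    nlinarith

theorem four_ineq {a b c d : ℝ} (ha : a = 0 ∨ a = 1) (hb : b = 0 ∨ b = 1) (hc : c = 0 ∨ c = 1) (hd : d = 0 ∨ d = 1) :
    a * b * c + a * b * d + a * c * d + b * c * d ≤ 1 + 3 * (a * b * c * d) := by
  rcases ha with rfl | rfl <;> rcases hb with rfl | rfl <;> rcases hc with rfl | rfl <;> rcases hd with rfl | rfl <;> norm_num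

section

variable {α : Type} (V : Finset α) (r : α → α → ℝ)

/-- step for 4-cliques -/
theorem step2_5 (h01 : ∀ x y, r x y = 0 ∨ r x y = 1) (hsym : ∀ x y, r x y = r y x) :
    4 * (∑ x ∈ V, ∑ y ∈ V, ∑ z ∈ V, (r x y * r x z * r y z) * (∑ w ∈ V, r x w * r y w * r z w) ^ 2) ≤
      (#V : ℝ) * (∑ x ∈ V, ∑ y ∈ V, ∑ z ∈ V, (r x y * r x z * r y z) * ∑ w ∈ V, r x w * r y w * r z w) +
      3 * ∑ x ∈ V, ∑ y ∈ V, ∑ z ∈ V, ∑ w ∈ V, ∑ v ∈ V,
        (r x y * r x z * r y z) * (r x w * r y w * r z w) * (r x v * r y v * r z v * r w v) := by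
  have hr0 : ∀ x y, 0 ≤ r x y := fun x y => by rcases h01 x y with h | h <;> rw [h] <;> norm_num
  have hk0 : ∀ x y z w, 0 ≤ (r x y * r x z * r y z) * (r x w * r y w * r z w) := fun x y z w =>
    mul_nonneg (mul_nonneg (mul_nonneg (hr0 _ _) (hr0 _ _)) (hr0 _ _)) (mul_nonneg (mul_nonneg (hr0 _ _) (hr0 _ _)) (hr0 _ _))
  have hp : ∀ x y z w, ((r x y * r x z * r y z) * (r x w * r y w * r z w)) *
      ((∑ v ∈ V, r x v * r y v * r z v) + (∑ v ∈ V, r x v * r y v * r w v) + (∑ v ∈ V, r x v * r z v * r w v) +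
        (∑ v ∈ V, r y v * r z v * r w v)) ≤
      ((r x y * r x z * r y z) * (r x w * r y w * r z w)) * ((#V : ℝ) + 3 * ∑ v ∈ V, r x v * r y v * r z v * r w v) := by
    intro x y z w
    apply mul_le_mul_of_nonneg_left _ (hk0 x y z w)
    have e1 : (#V : ℝ) + 3 * ∑ v ∈ V, r x v * r y v * r z v * r w v =
        ∑ v ∈ V, (1 + 3 * (r x v * r y v * r z v * r w v)) := by
      rw [Finset.sum_add_distrib, Finset.mul_sum]
      simp
    rw [e1, ← Finset.sum_add_distrib, ← Finset.sum_add_distrib, ← Finset.sum_add_distrib]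
    exact Finset.sum_le_sum (fun v _ => four_ineq (h01 x v) (h01 y v) (h01 z v) (h01 w v))
  have hsum := Finset.sum_le_sum (fun x (_ : x ∈ V) => Finset.sum_le_sum (fun y (_ : y ∈ V) =>
    Finset.sum_le_sum (fun z (_ : z ∈ V) => Finset.sum_le_sum (fun w (_ : w ∈ V) => hp x y z w))))
  obtain ⟨S, hS⟩ : ∃ S, S = ∑ x ∈ V, ∑ y ∈ V, ∑ z ∈ V, (r x y * r x z * r y z) * (∑ w ∈ V, r x w * r y w * r z w) ^ 2 := ⟨_, rfl⟩
  -- the missing vertex `w`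
  have hL1 : ∑ x ∈ V, ∑ y ∈ V, ∑ z ∈ V, ∑ w ∈ V, ((r x y * r x z * r y z) * (r x w * r y w * r z w)) *
      (∑ v ∈ V, r x v * r y v * r z v) = S := by
    rw [hS]
    refine Finset.sum_congr rfl (fun x _ => Finset.sum_congr rfl (fun y _ => Finset.sum_congr rfl (fun z _ => ?_)))
    rw [← Finset.sum_mul, ← Finset.mul_sum, sq, mul_assoc]
  -- the missing vertex `z`
  have hL2 : ∑ x ∈ V, ∑ y ∈ V, ∑ z ∈ V, ∑ w ∈ V, ((r x y * r x z * r y z) * (r x w * r y w * r z w)) *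
      (∑ v ∈ V, r x v * r y v * r w v) = S := by
    rw [← hL1]
    refine Finset.sum_congr rfl (fun x _ => Finset.sum_congr rfl (fun y _ => ?_))
    rw [Finset.sum_comm]
    refine Finset.sum_congr rfl (fun z _ => Finset.sum_congr rfl (fun w _ => ?_))
    rw [hsym w z]
    ring
  -- the missing vertex `y`
  have hL3 : ∑ x ∈ V, ∑ y ∈ V, ∑ z ∈ V, ∑ w ∈ V, ((r x y * r x z * r y z) * (r x w * r y w * r z w)) *
      (∑ v ∈ V, r x v * r z v * r w v) = S := by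
    rw [← hL2]
    refine Finset.sum_congr rfl (fun x _ => ?_)
    rw [Finset.sum_comm]
    refine Finset.sum_congr rfl (fun y _ => Finset.sum_congr rfl (fun z _ => Finset.sum_congr rfl (fun w _ => ?_)))
    rw [hsym z y]
    ring
  -- the missing vertex `x`
  have hL4 : ∑ x ∈ V, ∑ y ∈ V, ∑ z ∈ V, ∑ w ∈ V, ((r x y * r x z * r y z) * (r x w * r y w * r z w)) *
      (∑ v ∈ V, r y v * r z v * r w v) = S := by
    rw [← hL3, Finset.sum_comm]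
    refine Finset.sum_congr rfl (fun x _ => Finset.sum_congr rfl (fun y _ => Finset.sum_congr rfl (fun z _ =>
      Finset.sum_congr rfl (fun w _ => ?_))))
    rw [hsym y x]
    ring
  have hL : ∑ x ∈ V, ∑ y ∈ V, ∑ z ∈ V, ∑ w ∈ V, ((r x y * r x z * r y z) * (r x w * r y w * r z w)) *
      ((∑ v ∈ V, r x v * r y v * r z v) + (∑ v ∈ V, r x v * r y v * r w v) + (∑ v ∈ V, r x v * r z v * r w v) +
        (∑ v ∈ V, r y v * r z v * r w v)) = 4 * S := by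
    simp only [mul_add, Finset.sum_add_distrib]
    rw [hL1, hL2, hL3, hL4]
    ring
  have hR : ∑ x ∈ V, ∑ y ∈ V, ∑ z ∈ V, ∑ w ∈ V, ((r x y * r x z * r y z) * (r x w * r y w * r z w)) *
      ((#V : ℝ) + 3 * ∑ v ∈ V, r x v * r y v * r z v * r w v) =
      (#V : ℝ) * (∑ x ∈ V, ∑ y ∈ V, ∑ z ∈ V, (r x y * r x z * r y z) * ∑ w ∈ V, r x w * r y w * r z w) +
      3 * ∑ x ∈ V, ∑ y ∈ V, ∑ z ∈ V, ∑ w ∈ V, ∑ v ∈ V,
        (r x y * r x z * r y z) * (r x w * r y w * r z w) * (r x v * r y v * r z v * r w v) := by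
    simp only [Finset.mul_sum, mul_add, Finset.sum_add_distrib]
    refine congrArg₂ (· + ·) ?_ ?_
    · refine Finset.sum_congr rfl (fun x _ => Finset.sum_congr rfl (fun y _ =>
        Finset.sum_congr rfl (fun z _ => Finset.sum_congr rfl (fun w _ => ?_))))
      ring
    · refine Finset.sum_congr rfl (fun x _ => Finset.sum_congr rfl (fun y _ =>
        Finset.sum_congr rfl (fun z _ => Finset.sum_congr rfl (fun w _ => Finset.sum_congr rfl (fun v _ => ?_)))))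
      ring
  rw [hL, hR, hS] at hsum
  exact hsum

/-- Cauchy-Schwarz for 4-cliques -/
theorem step3_5 (h01 : ∀ x y, r x y = 0 ∨ r x y = 1) :
    (∑ x ∈ V, ∑ y ∈ V, ∑ z ∈ V, (r x y * r x z * r y z) * ∑ w ∈ V, r x w * r y w * r z w) ^ 2 ≤
      (∑ x ∈ V, ∑ y ∈ V, ∑ z ∈ V, (r x y * r x z * r y z)) *
        ∑ x ∈ V, ∑ y ∈ V, ∑ z ∈ V, (r x y * r x z * r y z) * (∑ w ∈ V, r x w * r y w * r z w) ^ 2 := by
  have hsq : ∀ x y z, (r x y * r x z * r y z) ^ 2 = r x y * r x z * r y z := fun x y z => by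
    rcases h01 x y with h | h <;> rcases h01 x z with h' | h' <;> rcases h01 y z with h'' | h'' <;> rw [h, h', h''] <;> norm_num
  have h := Finset.sum_mul_sq_le_sq_mul_sq (V ×ˢ V ×ˢ V) (fun p => r p.1 p.2.1 * r p.1 p.2.2 * r p.2.1 p.2.2)
    (fun p => r p.1 p.2.1 * r p.1 p.2.2 * r p.2.1 p.2.2 * ∑ w ∈ V, r p.1 w * r p.2.1 w * r p.2.2 w)
  simp only [Finset.sum_product] at h
  have e1 : ∑ x ∈ V, ∑ y ∈ V, ∑ z ∈ V, r x y * r x z * r y z * (r x y * r x z * r y z * ∑ w ∈ V, r x w * r y w * r z w) =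
      ∑ x ∈ V, ∑ y ∈ V, ∑ z ∈ V, (r x y * r x z * r y z) * ∑ w ∈ V, r x w * r y w * r z w := by
    refine Finset.sum_congr rfl (fun x _ => Finset.sum_congr rfl (fun y _ => Finset.sum_congr rfl (fun z _ => ?_)))
    rw [← mul_assoc, ← sq, hsq]
  have e2 : ∑ x ∈ V, ∑ y ∈ V, ∑ z ∈ V, (r x y * r x z * r y z) ^ 2 = ∑ x ∈ V, ∑ y ∈ V, ∑ z ∈ V, r x y * r x z * r y z :=
    Finset.sum_congr rfl (fun x _ => Finset.sum_congr rfl (fun y _ => Finset.sum_congr rfl (fun z _ => hsq x y z)))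
  have e3 : ∑ x ∈ V, ∑ y ∈ V, ∑ z ∈ V, (r x y * r x z * r y z * ∑ w ∈ V, r x w * r y w * r z w) ^ 2 =
      ∑ x ∈ V, ∑ y ∈ V, ∑ z ∈ V, (r x y * r x z * r y z) * (∑ w ∈ V, r x w * r y w * r z w) ^ 2 :=
    Finset.sum_congr rfl (fun x _ => Finset.sum_congr rfl (fun y _ => Finset.sum_congr rfl (fun z _ => by rw [mul_pow, hsq])))
  rw [e1, e2, e3] at h
  exact h

/-- the inequality for 5-cliques: if every 5-clique contains a special 4-clique -/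
theorem MM5 (q : α → α → α → α → ℝ) (h01 : ∀ x y, r x y = 0 ∨ r x y = 1) (hsym : ∀ x y, r x y = r y x)
    (hq : ∀ x ∈ V, ∀ y ∈ V, ∀ z ∈ V, ∀ w ∈ V, ∀ v ∈ V,
      (r x y * r x z * r y z) * (r x w * r y w * r z w) * (r x v * r y v * r z v * r w v) ≤
        q x y z w + q x y z v + q x y w v + q x z w v + q y z w v) :
    (#V : ℝ) ^ 2 * ∑ x ∈ V, ∑ y ∈ V, r x y ≤ 3 / 4 * (#V : ℝ) ^ 4 + 40 / 3 * ∑ x ∈ V, ∑ y ∈ V, ∑ z ∈ V, ∑ w ∈ V, q x y z w := by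
  have hr0 : ∀ x y, 0 ≤ r x y := fun x y => by rcases h01 x y with h | h <;> rw [h] <;> norm_num
  rcases Finset.eq_empty_or_nonempty V with rfl | hne
  · simp
  have hn : (0 : ℝ) < #V := by exact_mod_cast Finset.card_pos.2 hne
  obtain ⟨N2, hN2⟩ : ∃ N2, N2 = ∑ x ∈ V, ∑ y ∈ V, r x y := ⟨_, rfl⟩
  obtain ⟨N3, hN3⟩ : ∃ N3, N3 = ∑ x ∈ V, ∑ y ∈ V, r x y * ∑ w ∈ V, r x w * r y w := ⟨_, rfl⟩
  obtain ⟨N4, hN4⟩ : ∃ N4, N4 = ∑ x ∈ V, ∑ y ∈ V, ∑ z ∈ V, (r x y * r x z * r y z) * ∑ w ∈ V, r x w * r y w * r z w := ⟨_, rfl⟩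
  obtain ⟨N5, hN5⟩ : ∃ N5, N5 = ∑ x ∈ V, ∑ y ∈ V, ∑ z ∈ V, ∑ w ∈ V, ∑ v ∈ V,
        (r x y * r x z * r y z) * (r x w * r y w * r z w) * (r x v * r y v * r z v * r w v) := ⟨_, rfl⟩
  have h1 := MM_step1 V r h01 hsym
  have h2 := MM_step2 V r h01 hsym
  have h3 := MM_step3 V r h01
  have h4 := step2_5 V r h01 hsym
  have h5 := step3_5 V r h01
  have e4 : ∑ x ∈ V, ∑ y ∈ V, ∑ z ∈ V, ∑ w ∈ V, r x y * (r x z * (r x w * (r y z * (r y w * r z w)))) = N4 := by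
    rw [hN4]
    refine Finset.sum_congr rfl (fun x _ => Finset.sum_congr rfl (fun y _ => Finset.sum_congr rfl (fun z _ => ?_)))
    rw [Finset.mul_sum]
    refine Finset.sum_congr rfl (fun w _ => ?_)
    ring
  have e3 : ∑ x ∈ V, ∑ y ∈ V, ∑ z ∈ V, (r x y * r x z * r y z) = N3 := by
    rw [hN3]
    refine Finset.sum_congr rfl (fun x _ => Finset.sum_congr rfl (fun y _ => ?_))
    rw [Finset.mul_sum]
    refine Finset.sum_congr rfl (fun w _ => ?_)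
    ring
  rw [e4, ← hN3] at h2
  rw [← hN2, ← hN3] at h1 h3
  rw [← hN4, ← hN5] at h4
  rw [← hN4, e3] at h5
  have hN20 : 0 ≤ N2 := by
    rw [hN2]
    exact Finset.sum_nonneg (fun x _ => Finset.sum_nonneg (fun y _ => hr0 _ _))
  have hN30 : 0 ≤ N3 := by
    rw [← e3]
    exact Finset.sum_nonneg (fun x _ => Finset.sum_nonneg (fun y _ => Finset.sum_nonneg (fun z _ =>
      mul_nonneg (mul_nonneg (hr0 _ _) (hr0 _ _)) (hr0 _ _))))
  have hN50 : 0 ≤ N5 := by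
    rw [hN5]
    exact Finset.sum_nonneg (fun x _ => Finset.sum_nonneg (fun y _ => Finset.sum_nonneg (fun z _ => Finset.sum_nonneg (fun w _ =>
      Finset.sum_nonneg (fun v _ => mul_nonneg (mul_nonneg (mul_nonneg (mul_nonneg (hr0 _ _) (hr0 _ _)) (hr0 _ _))
        (mul_nonneg (mul_nonneg (hr0 _ _) (hr0 _ _)) (hr0 _ _))) (mul_nonneg (mul_nonneg (mul_nonneg (hr0 _ _) (hr0 _ _)) (hr0 _ _)) (hr0 _ _)))))))
  have k2 : 3 * N3 ^ 2 ≤ N2 * ((#V : ℝ) * N3 + 2 * N4) := by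
    have := mul_le_mul_of_nonneg_left h2 hN20
    nlinarith
  have k3 : 4 * N4 ^ 2 ≤ N3 * ((#V : ℝ) * N4 + 3 * N5) := by
    have := mul_le_mul_of_nonneg_left h4 hN30
    nlinarith
  have h6 := alg5 (#V : ℝ) N2 N3 N4 N5 hn hN50 h1 k2 k3
  obtain ⟨Q, hQ⟩ : ∃ Q, Q = ∑ x ∈ V, ∑ y ∈ V, ∑ z ∈ V, ∑ w ∈ V, q x y z w := ⟨_, rfl⟩
  have h7 : N5 ≤ 5 * (#V : ℝ) * Q := by
    have h8 : N5 ≤ ∑ x ∈ V, ∑ y ∈ V, ∑ z ∈ V, ∑ w ∈ V, ∑ v ∈ V,
        (q x y z w + q x y z v + q x y w v + q x z w v + q y z w v) := by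
      rw [hN5]
      exact Finset.sum_le_sum (fun x hx => Finset.sum_le_sum (fun y hy => Finset.sum_le_sum (fun z hz =>
        Finset.sum_le_sum (fun w hw => Finset.sum_le_sum (fun v hv => hq x hx y hy z hz w hw v hv)))))
    refine h8.trans (le_of_eq ?_)
    simp only [Finset.sum_add_distrib]
    have q1 : ∑ x ∈ V, ∑ y ∈ V, ∑ z ∈ V, ∑ w ∈ V, ∑ v ∈ V, q x y z w = (#V : ℝ) * Q := by
      simp only [Finset.sum_const, nsmul_eq_mul]
      rw [hQ]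
      simp only [Finset.mul_sum]
    have q2 : ∑ x ∈ V, ∑ y ∈ V, ∑ z ∈ V, ∑ w ∈ V, ∑ v ∈ V, q x y z v = (#V : ℝ) * Q := by
      simp only [Finset.sum_const, nsmul_eq_mul]
      rw [hQ]
      simp only [Finset.mul_sum]
    have q3 : ∑ x ∈ V, ∑ y ∈ V, ∑ z ∈ V, ∑ w ∈ V, ∑ v ∈ V, q x y w v = (#V : ℝ) * Q := by
      simp only [Finset.sum_const, nsmul_eq_mul]
      rw [hQ]
      simp only [Finset.mul_sum]
    have q4 : ∑ x ∈ V, ∑ y ∈ V, ∑ z ∈ V, ∑ w ∈ V, ∑ v ∈ V, q x z w v = (#V : ℝ) * Q := by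
      simp only [Finset.sum_const, nsmul_eq_mul]
      rw [hQ]
      simp only [Finset.mul_sum]
    have q5 : ∑ x ∈ V, ∑ y ∈ V, ∑ z ∈ V, ∑ w ∈ V, ∑ v ∈ V, q y z w v = (#V : ℝ) * Q := by
      simp only [Finset.sum_const, nsmul_eq_mul]
      rw [hQ]
    rw [q1, q2, q3, q4, q5]
    ring
  rw [← hN2, ← hQ]
  have h9 : (#V : ℝ) * ((#V : ℝ) ^ 2 * N2) ≤ (#V : ℝ) * (3 / 4 * (#V : ℝ) ^ 4 + 40 / 3 * Q) := by
    nlinarith
  exact le_of_mul_le_mul_left h9 hn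

end

end Pool.Agent.helper4.UX
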