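import Pool.Agent.helper99.IT.Spec
import Pool.Agent.helper9.IT.ORB
import Pool.Agent.helper24.IT.PRI
import Pool.Agent.helper41.IT.EVT

/-!
# Universal exponents (MP_bf63dc_nt): every large set of exponents contains `s` exponents with simultaneous primes
-/

set_option autoImplicit false

namespace Pool.Agent.helper4.UX

open Finset Pool.Agent.AT Pool.Agent.IT

/-- simultaneous primes `p x`, `x ∈ S`, `T^(y - x) (p x) = p y`, infinitely often; all `T^(y - x)` are true cases -/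
def Con (a b : ℕ) (c : ℤ) (S : Finset ℕ) : Prop :=
  (∀ N : ℕ, ∃ p : ℕ → ℕ, ∀ x ∈ S, (p x).Prime ∧ N ≤ p x ∧ ∀ y ∈ S, x < y →
    (a : ℤ) ^ (y - x) * p y - (b : ℤ) ^ (y - x) * p x = c * (br a b (y - x) : ℕ)) ∧
  ∀ x ∈ S, ∀ y ∈ S, x < y → It a b c (y - x)

theorem Con_mono (a b : ℕ) (c : ℤ) (S T : Finset ℕ) (h : S ⊆ T) (hT : Con a b c T) : Con a b c S := by
  refine ⟨fun N => ?_, fun x hx y hy hxy => hT.2 x (h hx) y (h hy) hxy⟩
  obtain ⟨p, hp⟩ := hT.1 N
  exact ⟨p, fun x hx => ⟨(hp x (h hx)).1, (hp x (h hx)).2.1, fun y hy hxy => (hp x (h hx)).2.2 y (h hy) hxy⟩⟩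

/-- exponents `e i` (increasing, divisible by `k!`) -/
theorem core (s k : ℕ) (hMT : ∀ (A : Fin k → ℕ) (B : Fin k → ℤ), (∀ i, 0 < A i) →
    (∀ i j, i ≠ j → (A i : ℤ) * B j ≠ A j * B i) →
    (∀ p : ℕ, p.Prime → ∃ n : ℕ, ∀ i, ¬ (p : ℤ) ∣ A i * n + B i) →
    ∀ N : ℕ, ∃ n ≥ N, s < #{i : Fin k | ((A i : ℤ) * n + B i).toNat.Prime}) (a b : ℕ) (c : ℤ) (hA : Ad a b c)
    (e : Fin k → ℕ) (he : StrictMono e) (hk : ∀ i, k.factorial ∣ e i) :
    ∃ I : Finset (Fin k), #I = s ∧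
      (∀ N : ℕ, ∃ p : Fin k → ℕ, ∀ i ∈ I, (p i).Prime ∧ N ≤ p i ∧ ∀ j ∈ I, i < j →
        (a : ℤ) ^ (e j - e i) * p j - (b : ℤ) ^ (e j - e i) * p i = c * (br a b (e j - e i) : ℕ)) ∧
      ∀ i ∈ I, ∀ j ∈ I, i < j → It a b c (e j - e i) := by
  classical
  obtain ⟨ha, hb, hc, hab, hac, hbc, -⟩ := hA
  set E := (∑ i, e i) + 1 with hE
  have heE : ∀ i, e i < E := fun i =>
    Nat.lt_succ_of_le (Finset.single_le_sum (f := e) (fun _ _ => Nat.zero_le _) (Finset.mem_univ i))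
  obtain ⟨h, hh⟩ := ORB a b E c ha hb hab
  have hadm := EVT_adm k a b E c h hab hac hbc hh e heE hk
  have hpos : ∀ i, 0 < a ^ (E - e i) * b ^ (e i) := fun i => by positivity
  have hnp : ∀ i j : Fin k, i < j → ((a ^ (E - e i) * b ^ (e i) : ℕ) : ℤ) * h (e j) ≠ ((a ^ (E - e j) * b ^ (e j) : ℕ) : ℤ) * h (e i) := by
    intro i j hij h0
    exact EVT_np a b E c h ha hb hc hh (e i) (e j) (he hij) (heE j).le (sub_eq_zero.2 h0)
  have hM := hMT (fun i => a ^ (E - e i) * b ^ (e i)) (fun i => h (e i)) hpos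
    (by
      intro i j hij
      rcases lt_or_gt_of_ne hij with h1 | h1
      · exact hnp i j h1
      · exact (hnp j i h1).symm)
    hadm
  have hclique : ∃ I : Finset (Fin k), s < #I ∧ ∀ N : ℕ, ∃ n ≥ N, ∀ i ∈ I, (ev (a ^ (E - e i) * b ^ (e i), h (e i)) n).Prime := by
    by_contra hcon
    push Not at hcon
    have hc2 : ∀ I : Finset (Fin k), ∃ N : ℕ, s < #I → ∀ n ≥ N, ∃ i ∈ I, ¬ (ev (a ^ (E - e i) * b ^ (e i), h (e i)) n).Prime := by
      intro I
      by_cases hx : s < #I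
      · obtain ⟨N, hN⟩ := hcon I hx
        exact ⟨N, fun _ => hN⟩
      · exact ⟨0, fun h1 => absurd h1 hx⟩
    choose N hN using hc2
    obtain ⟨n, hn, hcard⟩ := hM (∑ I : Finset (Fin k), N I)
    obtain ⟨i, hi, h1⟩ := hN _ hcard n ((Finset.single_le_sum (f := N) (fun _ _ => Nat.zero_le _) (Finset.mem_univ _)).trans hn)
    rw [Finset.mem_filter] at hi
    exact h1 hi.2
  obtain ⟨I₀, hI₀, hinf₀⟩ := hclique
  obtain ⟨I, hII, hIc⟩ := Finset.exists_subset_card_eq hI₀.le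
  have hinf : ∀ N : ℕ, ∃ n ≥ N, ∀ i ∈ I, (ev (a ^ (E - e i) * b ^ (e i), h (e i)) n).Prime := fun N => by
    obtain ⟨n, hn, h1⟩ := hinf₀ N
    exact ⟨n, hn, fun i hi => h1 i (hII hi)⟩
  refine ⟨I, hIc, ?_, ?_⟩
  · intro N
    obtain ⟨n, hn, hp⟩ := hinf (N + ∑ i, (h (e i)).natAbs)
    refine ⟨fun i => ev (a ^ (E - e i) * b ^ (e i), h (e i)) n, fun i hi => ⟨hp i hi, ?_, ?_⟩⟩
    · have h1 : (h (e i)).natAbs ≤ ∑ i, (h (e i)).natAbs :=
        Finset.single_le_sum (f := fun i => (h (e i)).natAbs) (fun _ _ => Nat.zero_le _) (Finset.mem_univ i)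
      unfold ev
      dsimp only
      have h2 : (n : ℤ) ≤ ((a ^ (E - e i) * b ^ (e i) : ℕ) : ℤ) * n := by
        have h3 : (1 : ℤ) ≤ ((a ^ (E - e i) * b ^ (e i) : ℕ) : ℤ) := by exact_mod_cast hpos i
        have h4 : (0 : ℤ) ≤ n := Int.natCast_nonneg n
        nlinarith
      omega
    · intro j hj hij
      have hval : ∀ i ∈ I, ((ev (a ^ (E - e i) * b ^ (e i), h (e i)) n : ℕ) : ℤ) =
          (a : ℤ) ^ (E - e i) * (b : ℤ) ^ (e i) * n + h (e i) := by
        intro i hi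
        have h1 := (hp i hi).pos
        unfold ev at h1 ⊢
        dsimp only at h1 ⊢
        rw [Int.toNat_of_nonneg (by omega)]
        push_cast
        rfl
      rw [hval i hi, hval j hj]
      have hlt : e i < e j := he hij
      have h1 := EVT_orb a b E c h hh (e i) (e j - e i) (by have := heE j; omega)
      have h2 : e i + (e j - e i) = e j := by omega
      rw [h2] at h1
      have h3 : (a : ℤ) ^ (E - e i) = (a : ℤ) ^ (e j - e i) * (a : ℤ) ^ (E - e j) := by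
        rw [← pow_add]
        congr 1
        have := heE j
        omega
      have h4 : (b : ℤ) ^ (e j) = (b : ℤ) ^ (e j - e i) * (b : ℤ) ^ (e i) := by
        rw [← pow_add]
        congr 1
        omega
      rw [h3, h4]
      linear_combination h1
  · intro i hi j hj hij
    have hlt : e i < e j := he hij
    have hP := PRT (a ^ (E - e j) * b ^ (e j), h (e j)) (a ^ (E - e i) * b ^ (e i), h (e i)) (hpos j) (hpos i)
      (by
        intro h0
        have h1 := congrArg Prod.fst h0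
        have h2 := congrArg Prod.snd h0
        simp only at h1 h2
        apply hnp i j hij
        rw [h1, h2])
      (by
        intro p hp
        obtain ⟨n, hn⟩ := hadm p hp
        refine ⟨n, ?_⟩
        intro t
        fin_cases t
        · exact hn j
        · exact hn i)
      (by
        intro N
        obtain ⟨n, hn, h1⟩ := hinf N
        exact ⟨n, hn, h1 j hj, h1 i hi⟩)
    exact PRI a b E c h (e i) (e j) ha hb hab hh hlt (heE j).le hP

theorem NT (s : ℕ) : ∃ K : ℕ, ∀ (a b : ℕ) (c : ℤ), Ad a b c → ∀ T : Finset ℕ, K ≤ #T →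
    ∃ S ⊆ T, #S = s ∧ Con a b c S := by
  classical
  obtain ⟨k, hk2, hMT⟩ := Pool.Agent.helper39.MT.maynard_tao s
  refine ⟨k.factorial * k, fun a b c hA T hT => ?_⟩
  have hfac : 0 < k.factorial := Nat.factorial_pos k
  obtain ⟨ρ, -, hρ⟩ := Finset.exists_le_card_fiber_of_mul_le_card_of_maps_to (s := T) (t := Finset.range k.factorial)
    (f := fun x => x % k.factorial) (n := k) (fun x _ => Finset.mem_range.2 (Nat.mod_lt _ hfac))
    ⟨0, Finset.mem_range.2 hfac⟩ (by rw [Finset.card_range]; exact hT)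
  obtain ⟨T', hT', hTc⟩ := Finset.exists_subset_card_eq hρ
  have hmod : ∀ x ∈ T', x % k.factorial = ρ := fun x hx => (Finset.mem_filter.1 (hT' hx)).2
  have hTT : T' ⊆ T := hT'.trans (Finset.filter_subset _ _)
  set f := T'.orderEmbOfFin hTc with hf
  have hfm : ∀ i, f i ∈ T' := fun i => Finset.orderEmbOfFin_mem T' hTc i
  have hfρ : ∀ i, ρ ≤ f i := fun i => by
    rw [← hmod _ (hfm i)]
    exact Nat.mod_le _ _
  have hmono : StrictMono (fun i => f i - ρ) := fun i j hij => by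
    have h1 : f i < f j := f.strictMono hij
    have h2 := hfρ i
    show f i - ρ < f j - ρ
    omega
  obtain ⟨I, hIc, hI1, hI2⟩ := core s k hMT a b c hA (fun i => f i - ρ) hmono (fun i => by
    have h1 := Nat.dvd_sub_mod (n := k.factorial) (f i)
    rw [hmod _ (hfm i)] at h1
    exact h1)
  have hdiff : ∀ i j : Fin k, i < j → (f j - ρ) - (f i - ρ) = f j - f i := fun i j hij => by
    have h2 := hfρ i
    have h3 := hfρ j
    omega
  refine ⟨I.image f, ?_, ?_, ?_, ?_⟩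
  · intro x hx
    obtain ⟨i, -, rfl⟩ := Finset.mem_image.1 hx
    exact hTT (hfm i)
  · rw [Finset.card_image_of_injective _ f.injective, hIc]
  · intro N
    obtain ⟨p, hp⟩ := hI1 N
    refine ⟨fun x => if hx : ∃ i, f i = x then p hx.choose else 0, ?_⟩
    have hval : ∀ i, (fun x => if hx : ∃ i, f i = x then p hx.choose else 0) (f i) = p i := by
      intro i
      have hx : ∃ j, f j = f i := ⟨i, rfl⟩
      simp only
      rw [dif_pos hx]
      congr 1
      exact f.injective hx.choose_spec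
    intro x hx
    obtain ⟨i, hi, rfl⟩ := Finset.mem_image.1 hx
    obtain ⟨h1, h2, h3⟩ := hp i hi
    refine ⟨by rw [hval]; exact h1, by rw [hval]; exact h2, fun y hy hxy => ?_⟩
    obtain ⟨j, hj, rfl⟩ := Finset.mem_image.1 hy
    have hij : i < j := f.lt_iff_lt.1 hxy
    have h4 := h3 j hj hij
    simp only [hdiff i j hij] at h4
    rw [hval, hval]
    exact h4
  · intro x hx y hy hxy
    obtain ⟨i, hi, rfl⟩ := Finset.mem_image.1 hx
    obtain ⟨j, hj, rfl⟩ := Finset.mem_image.1 hy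
    have hij : i < j := f.lt_iff_lt.1 hxy
    have h4 := hI2 i hi j hj hij
    simp only [hdiff i j hij] at h4
    exact h4

/-- `L` cases at once -/
theorem NTL (s : ℕ) : ∀ L : ℕ, ∃ K : ℕ, ∀ C : Fin L → ℕ × ℕ × ℤ, (∀ l, Ad (C l).1 (C l).2.1 (C l).2.2) →
    ∀ T : Finset ℕ, K ≤ #T → ∃ S ⊆ T, #S = s ∧ ∀ l, Con (C l).1 (C l).2.1 (C l).2.2 S := by
  intro L
  induction L with
  | zero =>
    refine ⟨s, fun C _ T hT => ?_⟩
    obtain ⟨S, hS, hSc⟩ := Finset.exists_subset_card_eq hT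
    exact ⟨S, hS, hSc, fun l => l.elim0⟩
  | succ L ih =>
    obtain ⟨K, hK⟩ := ih
    obtain ⟨R, hR⟩ := NT K
    refine ⟨R, fun C hC T hT => ?_⟩
    obtain ⟨U, hU, hUc, hUC⟩ := hR _ _ _ (hC (Fin.last L)) T hT
    obtain ⟨S, hS, hSc, hSC⟩ := hK (fun l => C l.castSucc) (fun l => hC l.castSucc) U hUc.ge
    refine ⟨S, hS.trans hU, hSc, fun l => ?_⟩
    refine Fin.lastCases ?_ (fun j => ?_) l
    · exact Con_mono _ _ _ _ _ hS hUC
    · exact hSC j

end Pool.Agent.helper4.UX
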