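import Pool.Agent.helper4.UX.Clq
import Pool.Agent.helper4.UX.MM5
import Pool.Agent.helper38.AT.All
import Pool.Agent.helper34.IT.ITG

/-!
# Cliques of cases (MP_bf63dc_nt): a quarter of all quotients are true
-/

set_option autoImplicit false

namespace Pool.Agent.helper4.UX

open Finset Pool.Agent.IT Pool.Agent.AT

/-- the quotient of `f` and `g` is a true case of Q1 -/
def TR (f g : ℚ × ℚ) : Prop := ∃ (a b : ℕ) (c : ℤ), Pool.Agent.helper85.FC.TrueCase a b c ∧ Rel f g a b c

theorem TR_symm (f g : ℚ × ℚ) (h : TR f g) : TR g f := by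
  obtain ⟨a, b, c, hT, hR⟩ := h
  exact ⟨b, a, -c, ITG_tc_symm _ _ _ hT, Rel_symm _ _ _ _ _ hR⟩

/-- the relations in integers -/
theorem int_rel (f g : ℚ × ℚ) (s s' : ℕ) (D D' : ℤ) (y : ℕ → ℚ) (hy : ∀ n : ℕ, f.1 * y n + f.2 = (s : ℚ) * n + D)
    (hy' : ∀ n : ℕ, g.1 * y n + g.2 = (s' : ℚ) * n + D') (a b : ℕ) (c : ℤ) (hR : Rel f g a b c) :
    (a : ℤ) * s' = b * s ∧ (a : ℤ) * D' - b * D = c := by
  have e0 := hy 0
  have e1 := hy 1
  have k0 := hy' 0
  have k1 := hy' 1
  rw [Nat.cast_zero, mul_zero, zero_add] at e0 k0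
  rw [Nat.cast_one, mul_one] at e1 k1
  have h1 : (a : ℚ) * D' - b * D = c := by
    rw [← e0, ← k0]
    linear_combination (y 0) * hR.1 + hR.2
  have h2 : (a : ℚ) * (s' + D') - b * (s + D) = c := by
    rw [← e1, ← k1]
    linear_combination (y 1) * hR.1 + hR.2
  refine ⟨?_, by exact_mod_cast h1⟩
  have h3 : (a : ℚ) * s' = b * s := by linear_combination h2 - h1
  exact_mod_cast h3

/-- integer forms of a clique -/
structure Sys (S : Finset ℕ) (s : ℕ → ℕ) (D : ℕ → ℤ) : Prop where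
  pos : ∀ j ∈ S, 0 < s j
  rel : ∀ i ∈ S, ∀ j ∈ S, i ≠ j → ∃ (a b : ℕ) (c : ℤ), Ad a b c ∧ (a : ℤ) * s j = b * s i ∧ (a : ℤ) * D j - b * D i = c
  unit : ∀ p : ℕ, p.Prime → ∃ u ∈ S, ¬ (p : ℤ) ∣ s u

theorem prim (S : Finset ℕ) (s : ℕ → ℕ) (D : ℕ → ℤ) (h : Sys S s D) (p : ℕ) (hp : p.Prime) (j : ℕ) (hj : j ∈ S)
    (h1 : (p : ℤ) ∣ s j) : ¬ (p : ℤ) ∣ D j := by
  have hpz : Prime (p : ℤ) := Nat.prime_iff_prime_int.1 hp
  intro h2
  obtain ⟨u, hu, h3⟩ := h.unit p hp
  rcases eq_or_ne u j with h4 | h4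
  · rw [h4] at h3
    exact h3 h1
  · obtain ⟨a, b, c, hA, e1, e2⟩ := h.rel u hu j hj h4
    have h5 : (p : ℤ) ∣ b := by
      have h6 : (p : ℤ) ∣ b * s u := by
        rw [← e1]
        exact h1.mul_left _
      exact (hpz.dvd_or_dvd h6).resolve_right h3
    have h7 : (p : ℤ) ∣ c := by
      rw [← e2]
      exact dvd_sub (h2.mul_left _) (h5.mul_right _)
    exact cop_dvd p hp _ _ hA.2.2.2.2.2.1 h5 h7

/-- admissibility of quadruples: only the prime 3 matters -/
theorem adm4 (S : Finset ℕ) (s : ℕ → ℕ) (D : ℕ → ℤ) (h : Sys S s D) (x : Fin 4 → ℕ) (hx : ∀ i, x i ∈ S)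
    (h3 : ∃ n : ℕ, ∀ i, ¬ (3 : ℤ) ∣ s (x i) * n + D (x i)) : Adm (fun i => (s (x i), D (x i))) := by
  classical
  intro p hp
  by_cases hp5 : 5 ≤ p
  · -- at most four roots
    have hfact : Fact p.Prime := ⟨hp⟩
    have hz : ∀ z : ℤ, ((z : ℤ) : ZMod p) = 0 ↔ (p : ℤ) ∣ z := fun z => CharP.intCast_eq_zero_iff (ZMod p) p z
    have h1 : ((Finset.univ : Finset (Fin 4)).image (fun i => -((D (x i) : ℤ) : ZMod p) / (((s (x i) : ℕ) : ℤ) : ZMod p))).card <
        Fintype.card (ZMod p) := by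
      refine Finset.card_image_le.trans_lt ?_
      rw [ZMod.card, Finset.card_univ, Fintype.card_fin]
      omega
    obtain ⟨r, hr⟩ : ∃ r, r ∉ (Finset.univ : Finset (Fin 4)).image (fun i => -((D (x i) : ℤ) : ZMod p) / (((s (x i) : ℕ) : ℤ) : ZMod p)) := by
      by_contra hcon
      push Not at hcon
      rw [Finset.eq_univ_iff_forall.2 hcon, Finset.card_univ] at h1
      exact lt_irrefl _ h1
    refine ⟨r.val, fun i h0 => ?_⟩
    dsimp only at h0
    by_cases hs : (p : ℤ) ∣ s (x i)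
    · exact prim S s D h p hp (x i) (hx i) hs ((dvd_add_right (hs.mul_right _)).1 h0)
    · apply hr
      refine Finset.mem_image.2 ⟨i, Finset.mem_univ _, ?_⟩
      have hb : (((s (x i) : ℕ) : ℤ) : ZMod p) ≠ 0 := fun h2 => hs ((hz _).1 h2)
      rw [← hz] at h0
      have h0' : (((s (x i) : ℕ) : ℤ) : ZMod p) * r + ((D (x i) : ℤ) : ZMod p) = 0 := by
        rw [Int.cast_add, Int.cast_mul, Int.cast_natCast (r.val), ZMod.natCast_zmod_val] at h0
        exact h0
      rw [div_eq_iff hb]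
      linear_combination -h0'
  · have h2 := hp.two_le
    have h4 : p ≠ 4 := by
      rintro rfl
      exact absurd hp (by decide)
    have h23 : p = 2 ∨ p = 3 := by omega
    rcases h23 with rfl | rfl
    · -- the prime 2
      obtain ⟨u, hu, hsu⟩ := h.unit 2 hp
      have hou : ¬ (2 : ℤ) ∣ s u := hsu
      obtain ⟨n, hn⟩ : ∃ n : ℕ, ¬ (2 : ℤ) ∣ s u * n + D u := by
        by_cases hD : (2 : ℤ) ∣ D u
        · refine ⟨1, fun h0 => hou ?_⟩
          have h5 := (dvd_add_left hD).1 h0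
          simpa using h5
        · refine ⟨0, fun h0 => hD ?_⟩
          simpa using h0
      refine ⟨n, fun i h0 => ?_⟩
      have h0' : (2 : ℤ) ∣ s (x i) * n + D (x i) := h0
      rcases eq_or_ne u (x i) with h6 | h6
      · rw [← h6] at h0'
        exact hn h0'
      · obtain ⟨a, b, c, hA, e1, e2⟩ := h.rel u hu (x i) (hx i) h6
        have hp2 : Prime (2 : ℤ) := Int.prime_two
        by_cases hs : (2 : ℤ) ∣ s (x i)
        · exact prim S s D h 2 hp (x i) (hx i) hs ((dvd_add_right (hs.mul_right _)).1 h0')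
        · have ha : ¬ (2 : ℤ) ∣ a := by
            intro h7
            have h8 : (2 : ℤ) ∣ b * s u := by
              rw [← e1]
              exact h7.mul_right _
            have h9 := (hp2.dvd_or_dvd h8).resolve_right hou
            exact cop_dvd 2 hp _ _ (Nat.isCoprime_iff_coprime.2 hA.2.2.2.1) h7 h9
          have hb : ¬ (2 : ℤ) ∣ b := by
            intro h7
            have h8 : (2 : ℤ) ∣ a * s (x i) := by
              rw [e1]
              exact h7.mul_right _
            exact hs ((hp2.dvd_or_dvd h8).resolve_left ha)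
          have hc : (2 : ℤ) ∣ c := by
            by_contra h7
            apply hA.2.2.2.2.2.2
            refine ⟨?_, ?_, ?_⟩
            · rw [← Nat.not_even_iff_odd, even_iff_two_dvd]
              intro h8
              exact ha (by exact_mod_cast h8)
            · rw [← Nat.not_even_iff_odd, even_iff_two_dvd]
              intro h8
              exact hb (by exact_mod_cast h8)
            · rw [← Int.not_even_iff_odd, even_iff_two_dvd]
              exact h7
          have h7 : (b : ℤ) * (s u * n + D u) = a * (s (x i) * n + D (x i)) - c := by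
            linear_combination (-(n : ℤ)) * e1 - e2
          have h8 : (2 : ℤ) ∣ b * (s u * n + D u) := by
            rw [h7]
            exact dvd_sub (h0'.mul_left _) hc
          rcases hp2.dvd_or_dvd h8 with h9 | h9
          · exact hb h9
          · exact hn h9
    · obtain ⟨n, hn⟩ := h3
      exact ⟨n, fun i => hn i⟩

/-- the roots modulo 3: a form has at most one root among 0, 1, 2 -/
theorem root3 (S : Finset ℕ) (s : ℕ → ℕ) (D : ℕ → ℤ) (h : Sys S s D) (j : ℕ) (hj : j ∈ S) (n n' : ℕ) (hn : n < 3) (hn' : n' < 3)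
    (h1 : (3 : ℤ) ∣ s j * n + D j) (h2 : (3 : ℤ) ∣ s j * n' + D j) : n = n' := by
  by_contra hne
  have h3 : (3 : ℤ) ∣ s j * ((n : ℤ) - n') := by
    have h4 := dvd_sub h1 h2
    have e : (s j : ℤ) * n + D j - (s j * n' + D j) = s j * ((n : ℤ) - n') := by ring
    rwa [e] at h4
  have hp3 : Prime (3 : ℤ) := Int.prime_three
  rcases hp3.dvd_or_dvd h3 with h4 | h4
  · exact prim S s D h 3 Nat.prime_three j hj h4 ((dvd_add_right (h4.mul_right _)).1 h1)
  · omega

/-- among five forms four have no obstruction at 3 -/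
theorem five (S : Finset ℕ) (s : ℕ → ℕ) (D : ℕ → ℤ) (h : Sys S s D) (x : Fin 5 → ℕ) (hx : ∀ i, x i ∈ S) :
    ∃ (o : Fin 5) (n : ℕ), ∀ i, i ≠ o → ¬ (3 : ℤ) ∣ s (x i) * n + D (x i) := by
  classical
  set Z : ℕ → Finset (Fin 5) := fun n => {i | (3 : ℤ) ∣ s (x i) * n + D (x i)} with hZ
  have hdis : ∀ n < 3, ∀ n' < 3, n ≠ n' → Disjoint (Z n) (Z n') := by
    intro n hn n' hn' hne
    rw [Finset.disjoint_left]
    intro i hi hi'
    rw [hZ, Finset.mem_filter] at hi
    simp only [hZ, Finset.mem_filter] at hi'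
    exact hne (root3 S s D h (x i) (hx i) n n' hn hn' hi.2 hi'.2)
  have hcard : #(Z 0) + #(Z 1) + #(Z 2) ≤ 5 := by
    have h1 : #(Z 0 ∪ Z 1 ∪ Z 2) = #(Z 0) + #(Z 1) + #(Z 2) := by
      rw [Finset.card_union_of_disjoint, Finset.card_union_of_disjoint]
      · exact hdis 0 (by omega) 1 (by omega) (by omega)
      · rw [Finset.disjoint_union_left]
        exact ⟨hdis 0 (by omega) 2 (by omega) (by omega), hdis 1 (by omega) 2 (by omega) (by omega)⟩
    rw [← h1]
    exact (Finset.card_le_univ _).trans (by rw [Fintype.card_fin])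
  obtain ⟨n, hn⟩ : ∃ n, #(Z n) ≤ 1 := by
    by_contra hcon
    push Not at hcon
    have h0 := hcon 0
    have h1 := hcon 1
    have h2 := hcon 2
    omega
  rcases Nat.lt_or_ge (#(Z n)) 1 with h1 | h1
  · refine ⟨0, n, fun i _ h2 => ?_⟩
    have h3 : Z n = ∅ := Finset.card_eq_zero.1 (by omega)
    have h4 : i ∈ Z n := by
      rw [hZ, Finset.mem_filter]
      exact ⟨Finset.mem_univ _, h2⟩
    rw [h3] at h4
    exact Finset.notMem_empty _ h4
  · obtain ⟨o, ho⟩ := Finset.card_eq_one.1 (le_antisymm hn h1)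
    refine ⟨o, n, fun i hi h2 => hi ?_⟩
    have h4 : i ∈ Z n := by
      rw [hZ, Finset.mem_filter]
      exact ⟨Finset.mem_univ _, h2⟩
    rw [ho, Finset.mem_singleton] at h4
    exact h4

end Pool.Agent.helper4.UX
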